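import Mathlib

set_option linter.unusedSimpArgs false
set_option linter.unusedSectionVars false

open Finset

namespace Pool.Agent.H.MP_498a73_pr

open Classical in
noncomputable def ind (P : Prop) : ℝ := if P then 1 else 0

lemma ind_pos {P : Prop} (h : P) : ind P = 1 := by simp [ind, h]
lemma ind_neg {P : Prop} (h : ¬ P) : ind P = 0 := by simp [ind, h]
lemma ind_nonneg (P : Prop) : 0 ≤ ind P := by unfold ind; split_ifs <;> norm_num
lemma ind_le_one (P : Prop) : ind P ≤ 1 := by unfold ind; split_ifs <;> norm_num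
lemma ind_and (P Q : Prop) : ind (P ∧ Q) = ind P * ind Q := by
  by_cases hP : P <;> by_cases hQ : Q <;> simp [ind, hP, hQ]
lemma ind_not (P : Prop) : ind (¬ P) = 1 - ind P := by
  by_cases hP : P <;> simp [ind, hP]
lemma ind_congr {P Q : Prop} (h : P ↔ Q) : ind P = ind Q := by rw [propext h]
lemma ind_mono {P Q : Prop} (h : P → Q) : ind P ≤ ind Q := by
  by_cases hP : P
  · rw [ind_pos hP, ind_pos (h hP)]
  · rw [ind_neg hP]
    exact ind_nonneg _
lemma ind_forall {ι : Type*} (s : Finset ι) (P : ι → Prop) :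
    ind (∀ i ∈ s, P i) = ∏ i ∈ s, ind (P i) := by
  by_cases h : ∀ i ∈ s, P i
  · rw [ind_pos h, prod_eq_one fun i hi => ind_pos (h i hi)]
  · rw [ind_neg h]
    push Not at h
    obtain ⟨i, hi, h⟩ := h
    exact (prod_eq_zero hi (ind_neg h)).symm
lemma ind_forall' {ι : Type*} [Fintype ι] (P : ι → Prop) : ind (∀ i, P i) = ∏ i, ind (P i) := by
  rw [← ind_forall]
  simp
lemma card_eq_sum {ι : Type*} (s : Finset ι) (P : ι → Prop) [DecidablePred P] :
    ((s.filter P).card : ℝ) = ∑ i ∈ s, ind (P i) := by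
  rw [card_filter]
  push_cast
  exact sum_congr rfl fun i _ => by by_cases h : P i <;> simp [ind, h]
lemma ind_le_sum {ι : Type*} {s : Finset ι} {P : Prop} {f : ι → ℝ} (hf : ∀ i ∈ s, 0 ≤ f i)
    (h : P → ∃ i ∈ s, 1 ≤ f i) : ind P ≤ ∑ i ∈ s, f i := by
  by_cases hP : P
  · obtain ⟨i, hi, h1⟩ := h hP
    rw [ind_pos hP]
    exact h1.trans (single_le_sum hf hi)
  · rw [ind_neg hP]
    exact sum_nonneg hf

noncomputable def ex {Ω : Type*} [Fintype Ω] (f : Ω → ℝ) : ℝ := (∑ ω, f ω) / Fintype.card Ω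

section
variable {Ω : Type*} [Fintype Ω]

lemma ex_mono {f g : Ω → ℝ} (h : ∀ ω, f ω ≤ g ω) : ex f ≤ ex g :=
  div_le_div_of_nonneg_right (sum_le_sum fun ω _ => h ω) (Nat.cast_nonneg _)
lemma ex_nonneg {f : Ω → ℝ} (h : ∀ ω, 0 ≤ f ω) : 0 ≤ ex f :=
  div_nonneg (sum_nonneg fun ω _ => h ω) (Nat.cast_nonneg _)
lemma ex_add (f g : Ω → ℝ) : ex (fun ω => f ω + g ω) = ex f + ex g := by
  simp only [ex, sum_add_distrib, add_div]
lemma ex_sub (f g : Ω → ℝ) : ex (fun ω => f ω - g ω) = ex f - ex g := by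
  simp only [ex, sum_sub_distrib, sub_div]
lemma ex_cmul (c : ℝ) (f : Ω → ℝ) : ex (fun ω => c * f ω) = c * ex f := by
  simp only [ex, ← mul_sum, mul_div_assoc]
lemma ex_mulc (c : ℝ) (f : Ω → ℝ) : ex (fun ω => f ω * c) = ex f * c := by
  simp only [mul_comm _ c, ex_cmul]
lemma ex_sum {ι : Type*} (s : Finset ι) (f : ι → Ω → ℝ) :
    ex (fun ω => ∑ i ∈ s, f i ω) = ∑ i ∈ s, ex (f i) := by
  simp only [ex]
  rw [sum_comm, sum_div]
lemma ex_const [Nonempty Ω] (c : ℝ) : ex (fun _ : Ω => c) = c := by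
  have : (Fintype.card Ω : ℝ) ≠ 0 := by exact_mod_cast Fintype.card_ne_zero
  simp only [ex, sum_const, card_univ, nsmul_eq_mul]
  field_simp
lemma abs_ex_le (f : Ω → ℝ) : |ex f| ≤ ex fun ω => |f ω| := by
  rw [ex, abs_div, Nat.abs_cast]
  exact div_le_div_of_nonneg_right (abs_sum_le_sum_abs _ _) (Nat.cast_nonneg _)
lemma ex_le_one [Nonempty Ω] (P : Ω → Prop) : ex (fun ω => ind (P ω)) ≤ 1 :=
  (ex_mono fun _ => ind_le_one _).trans (ex_const 1).le

lemma ex_equiv {Ω' : Type*} [Fintype Ω'] (e : Ω ≃ Ω') (f : Ω' → ℝ) :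
    ex (fun ω => f (e ω)) = ex f := by
  rw [ex, ex, e.sum_comp f, Fintype.card_congr e]

lemma ex_prod {Ω' : Type*} [Fintype Ω'] (f : Ω × Ω' → ℝ) :
    ex f = ex fun a => ex fun b => f (a, b) := by
  simp only [ex, Fintype.sum_prod_type, Fintype.card_prod, ← sum_div, Nat.cast_mul, div_div,
    mul_comm]

lemma ex_pi {ι α : Type*} [Fintype ι] [DecidableEq ι] [Fintype α] (f : ι → α → ℝ) :
    ex (fun ω : ι → α => ∏ i, f i (ω i)) = ∏ i, ex (f i) := by
  simp only [ex, prod_div_distrib, prod_const, card_univ, Fintype.card_pi, Nat.cast_pow]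
  rw [prod_univ_sum, Fintype.piFinset_univ]

lemma ex_map {G H : Type*} [AddGroup G] [AddGroup H] [Fintype G] [Fintype H] (φ : G →+ H)
    (hφ : Function.Surjective φ) (f : H → ℝ) : ex (fun g => f (φ g)) = ex f := by
  classical
  set c := #{g | φ g = 0} with hc
  have h1 : ∀ y, #{g | φ g = y} = c := fun y =>
    AddMonoidHom.card_fiber_eq_of_mem_range φ (hφ y) (hφ 0)
  have h2 : ∀ u : H → ℝ, ∑ g, u (φ g) = c * ∑ y, u y := by
    intro u
    rw [← sum_fiberwise univ φ, mul_sum]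
    refine sum_congr rfl fun y _ => ?_
    rw [sum_congr rfl (g := fun _ => u y) fun g hg => by rw [(mem_filter.1 hg).2], sum_const, h1,
      nsmul_eq_mul]
  have h3 := h2 fun _ => 1
  simp only [sum_const, card_univ, nsmul_eq_mul, mul_one] at h3
  have h4 : (c : ℝ) ≠ 0 := by
    intro h
    rw [h, zero_mul] at h3
    exact Fintype.card_ne_zero (by exact_mod_cast h3)
  rw [ex, ex, h2, h3, mul_div_mul_left _ _ h4]

end

section
variable {F : Type} [Field F] [Fintype F] [DecidableEq F]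

noncomputable abbrev qq (F : Type) [Fintype F] : ℝ := Fintype.card F

lemma two_le_q : (2 : ℝ) ≤ qq F := by exact_mod_cast Fintype.one_lt_card

lemma q_pos : 0 < qq F := by linarith [two_le_q (F := F)]

lemma ex_zero : ex (fun a : F => ind (a = 0)) = (qq F)⁻¹ := by
  rw [ex, ← card_eq_sum, filter_eq', if_pos (mem_univ _), card_singleton, Nat.cast_one, one_div]

lemma col1 {ι : Type*} [Fintype ι] [DecidableEq ι] (A : Finset ι) :
    ex (fun v : ι → F => ind (∀ i ∈ A, v i = 0)) = (qq F)⁻¹ ^ A.card := by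
  have h1 : ∀ v : ι → F, ind (∀ i ∈ A, v i = 0)
      = ∏ i, (fun i (a : F) => if i ∈ A then ind (a = 0) else 1) i (v i) := by
    intro v
    rw [ind_forall, prod_ite_mem, univ_inter]
  simp only [h1]
  rw [ex_pi (fun i (a : F) => if i ∈ A then ind (a = 0) else 1), ← prod_const, ← univ_inter A, ← prod_ite_mem, univ_inter]
  refine prod_congr rfl fun i _ => ?_
  split_ifs
  · exact ex_zero
  · exact ex_const 1

lemma col2 {ι : Type*} [Fintype ι] [DecidableEq ι] (A : Finset ι) (a : ι → F) {j : ι}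
    (hj : j ∉ A) (ha : a j ≠ 0) :
    ex (fun v : ι → F => ind ((∀ i ∈ A, v i = 0) ∧ a ⬝ᵥ v = 0)) = (qq F)⁻¹ ^ (A.card + 1) := by
  let φ : (ι → F) →+ (ι → F) := AddMonoidHom.mk' (fun v => Function.update v j (a ⬝ᵥ v)) (by
    intro v w
    ext i
    by_cases h : i = j
    · subst h
      simp
    · simp [h])
  have hφ : Function.Injective φ := by
    rw [injective_iff_map_eq_zero]
    intro v hv
    have h1 : ∀ i, i ≠ j → v i = 0 := fun i hi => by simpa [φ, hi] using congrFun hv i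
    have h2 : a ⬝ᵥ v = 0 := by simpa [φ] using congrFun hv j
    rw [dotProduct, sum_eq_single j (fun i _ hi => by rw [h1 i hi, mul_zero]) (by simp)] at h2
    ext i
    by_cases h : i = j
    · rw [h]
      exact (mul_eq_zero.1 h2).resolve_left ha
    · exact h1 i h
  rw [← card_insert_of_notMem hj, ← col1,
    ← ex_map φ (Finite.injective_iff_surjective.1 hφ) fun v => ind (∀ i ∈ insert j A, v i = 0)]
  congr 1
  ext v
  apply ind_congr
  simp only [φ, AddMonoidHom.mk'_apply, mem_insert, forall_eq_or_imp, Function.update_self]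
  rw [and_comm]
  refine and_congr_right fun _ => forall₂_congr fun i hi => ?_
  have : i ≠ j := by
    rintro rfl
    exact hj hi
  rw [Function.update_of_ne this]

/-- pairing with an independent family is onto. -/
lemma pair_surj {ι : Type*} [Fintype ι] {k : ℕ} {x : ι → Fin k → F} (hx : LinearIndependent F x)
    (w : ι → F) : ∃ v, ∀ i, x i ⬝ᵥ v = w i := by
  classical
  have h1 : (Matrix.of x).rank = Fintype.card ι := hx.rank_matrix
  have h2 : LinearMap.range (Matrix.of x).mulVecLin = ⊤ := by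
    apply Submodule.eq_top_of_finrank_eq
    rw [Module.finrank_fintype_fun_eq_card]
    exact h1
  obtain ⟨v, hv⟩ := LinearMap.range_eq_top.1 h2 w
  exact ⟨v, fun i => congrFun hv i⟩

lemma ex_indep {ι τ : Type*} [Fintype ι] [DecidableEq ι] [Fintype τ] [DecidableEq τ] {k : ℕ}
    {x : ι → Fin k → F} (hx : LinearIndependent F x) (f : (τ → ι → F) → ℝ) :
    ex (fun G : τ → Fin k → F => f fun t i => x i ⬝ᵥ G t) = ex f := by
  let φ : (τ → Fin k → F) →+ (τ → ι → F) := AddMonoidHom.mk' (fun G t i => x i ⬝ᵥ G t) (by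
    intro v w
    ext t i
    simp)
  refine ex_map φ (fun c => ?_) f
  choose v hv using fun t => pair_surj hx (c t)
  exact ⟨v, by ext t i; exact hv t i⟩

end

end Pool.Agent.H.MP_498a73_pr
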