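import Pool.Agent.H.MP_498a73_pr.A

set_option linter.unusedSimpArgs false
set_option linter.unusedSectionVars false

open Finset

namespace Pool.Agent.H.MP_498a73_pr

variable {F : Type} [Field F] [Fintype F] [DecidableEq F]

def zs {n : ℕ} (c : Fin n → F) : Finset (Fin n) := {t | c t = 0}

lemma mem_zs {n : ℕ} {c : Fin n → F} {t : Fin n} : t ∈ zs c ↔ c t = 0 := by simp [zs]

def bad (k : ℕ) {n : ℕ} (c : Fin n → F) : Prop := k ≤ (zs c).card

noncomputable def pb (F : Type) [Field F] [Fintype F] [DecidableEq F] (n k : ℕ) : ℝ :=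
  ex fun c : Fin n → F => ind (bad k c)

lemma pb_nonneg (n k : ℕ) : 0 ≤ pb F n k := ex_nonneg fun _ => ind_nonneg _

lemma pb_le (n k : ℕ) : pb F n k ≤ n.choose k * (qq F)⁻¹ ^ k := by
  have h1 : ∀ c : Fin n → F, ind (bad k c) ≤ ∑ Z ∈ powersetCard k univ, ind (∀ t ∈ Z, c t = 0) := by
    intro c
    refine ind_le_sum (fun _ _ => ind_nonneg _) fun h => ?_
    obtain ⟨Z, h1, h2⟩ := exists_subset_card_eq h
    exact ⟨Z, mem_powersetCard.2 ⟨subset_univ _, h2⟩, (ind_pos fun t ht => mem_zs.1 (h1 ht)).ge⟩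
  refine (ex_mono h1).trans ?_
  rw [ex_sum, sum_congr rfl (g := fun _ => (qq F)⁻¹ ^ k)
    fun Z hZ => by rw [col1, (mem_powersetCard.1 hZ).2]]
  simp

lemma le_pb (n k : ℕ) : n.choose k * (qq F)⁻¹ ^ k * (1 - n * (qq F)⁻¹) ≤ pb F n k := by
  have h1 : ∀ c : Fin n → F, ∑ Z ∈ powersetCard k univ, ind (zs c = Z) ≤ ind (bad k c) := by
    intro c
    rw [← card_eq_sum, filter_eq]
    split_ifs with h
    · rw [ind_pos (P := bad k c) (mem_powersetCard.1 h).2.ge]
      simp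
    · simpa using ind_nonneg _
  refine le_trans ?_ (ex_mono h1)
  have hq := two_le_q (F := F)
  have hq1 : (qq F)⁻¹ ≤ 1 := inv_le_one_of_one_le₀ (by linarith)
  have hq0 : 0 < (qq F)⁻¹ := inv_pos.2 (by linarith)
  have h2 : ∀ Z ∈ powersetCard k (univ : Finset (Fin n)),
      (qq F)⁻¹ ^ k * (1 - n * (qq F)⁻¹) ≤ ex fun c : Fin n → F => ind (zs c = Z) := by
    intro Z hZ
    have h3 : ∀ c : Fin n → F, ind (zs c = Z)
        = ∏ t, (fun t (a : F) => if t ∈ Z then ind (a = 0) else 1 - ind (a = 0)) t (c t) := by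
      intro c
      rw [ind_congr (show zs c = Z ↔ ∀ t, (c t = 0 ↔ t ∈ Z) by simp [Finset.ext_iff, mem_zs]),
        ind_forall']
      refine prod_congr rfl fun t _ => ?_
      by_cases h : t ∈ Z <;> simp only [h, iff_true, iff_false, ind_not, ↓reduceIte]
    simp only [h3]
    rw [ex_pi (fun t (a : F) => if t ∈ Z then ind (a = 0) else 1 - ind (a = 0))]
    rw [prod_congr rfl (g := fun t => if t ∈ Z then (qq F)⁻¹ else 1 - (qq F)⁻¹) fun t _ => by
      split_ifs
      · exact ex_zero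
      · rw [ex_sub, ex_const, ex_zero]]
    rw [prod_ite, prod_const, prod_const, filter_univ_mem, (mem_powersetCard.1 hZ).2]
    refine mul_le_mul_of_nonneg_left ?_ (by positivity)
    have h4 := one_add_mul_le_pow (a := -(qq F)⁻¹) (by linarith) n
    have h5 : #{x | x ∉ Z} ≤ n := (card_le_univ _).trans (by simp)
    calc 1 - n * (qq F)⁻¹ ≤ (1 - (qq F)⁻¹) ^ n := by
          rw [sub_eq_add_neg 1 (qq F)⁻¹]
          linarith
      _ ≤ _ := pow_le_pow_of_le_one (by linarith) (by linarith) h5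
  rw [ex_sum]
  refine le_trans ?_ (sum_le_sum h2)
  simp [mul_assoc]

section tau
variable {ι : Type} [Fintype ι] [DecidableEq ι] {n : ℕ}

lemma ex_vanish (Z : ι → Finset (Fin n)) (a : ι → F) (J : Finset (Fin n))
    (hJ : ∀ t ∈ J, ∃ i, a i ≠ 0 ∧ t ∉ Z i) :
    ex (fun c : Fin n → ι → F => ind ((∀ i, ∀ t ∈ Z i, c t i = 0) ∧ ∀ t ∈ J, a ⬝ᵥ c t = 0))
      = (qq F)⁻¹ ^ (∑ i, (Z i).card + J.card) := by
  have h1 : ∀ c : Fin n → ι → F, ind ((∀ i, ∀ t ∈ Z i, c t i = 0) ∧ ∀ t ∈ J, a ⬝ᵥ c t = 0)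
      = ∏ t, (fun t (v : ι → F) => ind ((∀ i ∈ ({i | t ∈ Z i} : Finset ι), v i = 0) ∧
        (t ∈ J → a ⬝ᵥ v = 0))) t (c t) := by
    intro c
    rw [← ind_forall']
    apply ind_congr
    simp only [mem_filter, mem_univ, true_and, forall_and]
    exact and_congr_left fun _ => forall_comm
  simp only [h1]
  rw [ex_pi (fun t (v : ι → F) => ind ((∀ i ∈ ({i | t ∈ Z i} : Finset ι), v i = 0) ∧
        (t ∈ J → a ⬝ᵥ v = 0)))]
  rw [prod_congr rfl (g := fun t => (qq F)⁻¹ ^ (#{i | t ∈ Z i} + if t ∈ J then 1 else 0))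
    fun t _ => ?_, prod_pow_eq_pow_sum, sum_add_distrib]
  · congr 2
    · simp only [card_filter]
      rw [sum_comm]
      simp
    · simp
  · by_cases h : t ∈ J
    · obtain ⟨i, h1, h2⟩ := hJ t h
      simp only [h, true_imp_iff, ↓reduceIte]
      exact col2 _ a (j := i) (by simpa using h2) h1
    · simp only [h, false_imp_iff, and_true, ↓reduceIte, add_zero]
      exact col1 _

lemma card_small (n L : ℕ) (hn : 1 ≤ n) :
    #{S : Finset (Fin n) | S.card ≤ L} ≤ (L + 1) * n ^ L := by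
  have h1 : ({S : Finset (Fin n) | S.card ≤ L} : Finset _)
      ⊆ (range (L + 1)).biUnion fun i => powersetCard i univ := by
    intro S hS
    simp only [mem_filter, mem_univ, true_and] at hS
    simp only [mem_biUnion, mem_range, mem_powersetCard, subset_univ, true_and]
    exact ⟨_, Nat.lt_succ_of_le hS, rfl⟩
  refine (card_le_card h1).trans (card_biUnion_le.trans ?_)
  refine (sum_le_card_nsmul _ _ (n ^ L) fun i hi => ?_).trans (by simp)
  rw [card_powersetCard, card_univ, Fintype.card_fin]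
  exact (Nat.choose_le_pow _ _).trans (Nat.pow_le_pow_right hn (Nat.lt_succ_iff.1 (mem_range.1 hi)))

lemma card_close (k L : ℕ) (hn : 1 ≤ n) {S : Finset (Fin n)} (hS : S.card = k) :
    #{T ∈ powersetCard k univ | k < (S ∩ T).card + L} ≤ ((L + 1) * n ^ L) ^ 2 := by
  have h1 := card_le_card_of_injOn (s := {T ∈ powersetCard k univ | k < (S ∩ T).card + L})
    (t := ({S : Finset (Fin n) | S.card ≤ L} : Finset _) ×ˢ
      ({S : Finset (Fin n) | S.card ≤ L} : Finset _)) (fun T => (S \ T, T \ S)) (by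
      intro T hT
      simp only [coe_filter, mem_powersetCard, subset_univ, true_and, Set.mem_ofPred_eq] at hT
      have h2 := card_sdiff_add_card_inter S T
      have h3 := card_sdiff_add_card_inter T S
      rw [inter_comm] at h3
      simp only [coe_product, coe_filter, mem_univ, true_and, Set.mem_prod, Set.mem_ofPred_eq]
      omega) (by
      intro T _ T' _ h
      simp only [Prod.mk.injEq, Finset.ext_iff, mem_sdiff] at h
      ext t
      have h1 := h.1 t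
      have h2 := h.2 t
      tauto)
  rw [card_product] at h1
  rw [pow_two]
  exact h1.trans (Nat.mul_le_mul (card_small n L hn) (card_small n L hn))

lemma sum_close (k L : ℕ) (hn : 1 ≤ n) {α β : ι} (h : α ≠ β) :
    (∑ Z ∈ Fintype.piFinset fun _ : ι => powersetCard k (univ : Finset (Fin n)),
      ind (k < (Z α ∩ Z β).card + L)) * n.choose k
        ≤ (n.choose k : ℝ) ^ Fintype.card ι * (((L + 1) * n ^ L) ^ 2 : ℕ) := by
  set K := powersetCard k (univ : Finset (Fin n)) with hK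
  have hc : K.card = n.choose k := by simp [hK]
  have h1 : ∀ f : (ι → Finset (Fin n)) → ℝ, (∑ Z ∈ Fintype.piFinset fun _ : ι => K, f Z) * K.card
      = ∑ Z ∈ Fintype.piFinset fun _ : ι => K, ∑ T ∈ K, f (Function.update Z β T) := by
    intro f
    rw [sum_mul, ← sum_product']
    simp only [mul_comm _ (K.card : ℝ), ← nsmul_eq_mul, ← sum_const]
    rw [← sum_product']
    refine sum_nbij' (fun p => (Function.update p.1 β p.2, p.1 β))
      (fun p => (Function.update p.1 β p.2, p.1 β)) ?_ ?_ ?_ ?_ ?_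
    all_goals
      rintro ⟨Z, T⟩ hp
      simp only [coe_product, Set.mem_prod, mem_coe, mem_product, Fintype.mem_piFinset] at hp ⊢
    · exact ⟨fun i => by by_cases hi : i = β <;> simp [hi, hp.2, hp.1 i], hp.1 β⟩
    · exact ⟨fun i => by by_cases hi : i = β <;> simp [hi, hp.2, hp.1 i], hp.1 β⟩
    · simp
    · simp
    · simp
  rw [← hc, h1]
  refine (sum_le_card_nsmul _ _ ((((L + 1) * n ^ L) ^ 2 : ℕ) : ℝ) fun Z hZ => ?_).trans (by simp)
  simp only [Function.update_self, Function.update_of_ne h]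
  rw [← card_eq_sum]
  exact_mod_cast card_close k L hn (mem_powersetCard.1 (Fintype.mem_piFinset.1 hZ α)).2

def tauEv (k : ℕ) (c : Fin n → ι → F) : Prop :=
  (∀ i, bad k fun t => c t i) ∧ ∃ a : ι → F, (∃ α β, α ≠ β ∧ a α ≠ 0 ∧ a β ≠ 0) ∧
    bad k fun t => a ⬝ᵥ c t

lemma tau_le (k : ℕ) (hn : 1 ≤ n) (hk : k ≤ n) :
    ex (fun c : Fin n → ι → F => ind (tauEv k c)) ≤ (n.choose k * (qq F)⁻¹ ^ k) ^ Fintype.card ι *
      ((Fintype.card ι : ℝ) ^ 2 * (((Fintype.card ι + 2) * n ^ (Fintype.card ι + 1)) ^ 2 : ℕ)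
        / n.choose k + (n : ℝ) ^ (Fintype.card ι + 1) * (qq F)⁻¹) := by
  set ρ := Fintype.card ι with hρ
  set K := powersetCard k (univ : Finset (Fin n)) with hK
  have hN : (0 : ℝ) < n.choose k := by exact_mod_cast Nat.choose_pos hk
  have hq := q_pos (F := F)
  let V : (ι → Finset (Fin n)) → (Fin n → ι → F) → Prop := fun Z c => ∀ i, ∀ t ∈ Z i, c t i = 0
  have h1 : ∀ c : Fin n → ι → F, ind (tauEv k c) ≤ ∑ Z ∈ Fintype.piFinset fun _ : ι => K,
      ((∑ α, ∑ β ∈ univ.erase α, ind (k < (Z α ∩ Z β).card + (ρ + 1))) * ind (V Z c)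
        + ∑ a : ι → F, ∑ J ∈ powersetCard (ρ + 1) univ,
          ind (∀ t ∈ J, ∃ i, a i ≠ 0 ∧ t ∉ Z i) * ind (V Z c ∧ ∀ t ∈ J, a ⬝ᵥ c t = 0)) := by
    intro c
    have n1 : ∀ Z : ι → Finset (Fin n), 0 ≤ (∑ α, ∑ β ∈ univ.erase α,
        ind (k < (Z α ∩ Z β).card + (ρ + 1))) * ind (V Z c) := fun Z =>
      mul_nonneg (sum_nonneg fun _ _ => sum_nonneg fun _ _ => ind_nonneg _) (ind_nonneg _)
    have n2 : ∀ Z : ι → Finset (Fin n), 0 ≤ ∑ a : ι → F, ∑ J ∈ powersetCard (ρ + 1) univ,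
        ind (∀ t ∈ J, ∃ i, a i ≠ 0 ∧ t ∉ Z i) * ind (V Z c ∧ ∀ t ∈ J, a ⬝ᵥ c t = 0) := fun Z =>
      sum_nonneg fun _ _ => sum_nonneg fun _ _ => mul_nonneg (ind_nonneg _) (ind_nonneg _)
    refine ind_le_sum (fun Z _ => add_nonneg (n1 Z) (n2 Z)) ?_
    rintro ⟨h1, a, ⟨α, β, hαβ, ha, hb⟩, h2⟩
    choose Z hZ1 hZ2 using fun i => exists_subset_card_eq (h1 i)
    have hV : V Z c := fun i t ht => mem_zs.1 (hZ1 i ht)
    refine ⟨Z, Fintype.mem_piFinset.2 fun i => mem_powersetCard.2 ⟨subset_univ _, hZ2 i⟩, ?_⟩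
    by_cases h3 : k < (Z α ∩ Z β).card + (ρ + 1)
    · refine le_add_of_le_of_nonneg ?_ (n2 Z)
      rw [ind_pos hV, mul_one, ← ind_pos trivial]
      refine ind_le_sum (fun _ _ => sum_nonneg fun _ _ => ind_nonneg _) fun _ => ⟨α, mem_univ _, ?_⟩
      rw [← ind_pos trivial]
      exact ind_le_sum (fun _ _ => ind_nonneg _) fun _ =>
        ⟨β, mem_erase.2 ⟨hαβ.symm, mem_univ _⟩, (ind_pos h3).ge⟩
    · refine le_add_of_nonneg_of_le (n1 Z) ?_
      have h4 : ρ + 1 ≤ ((zs fun t => a ⬝ᵥ c t) \ (Z α ∩ Z β)).card := by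
        have h5 := le_card_sdiff (Z α ∩ Z β) (zs fun t => a ⬝ᵥ c t)
        unfold bad at h2
        omega
      obtain ⟨J, hJ1, hJ2⟩ := exists_subset_card_eq h4
      rw [← ind_pos trivial]
      refine ind_le_sum (fun _ _ => sum_nonneg fun _ _ => mul_nonneg (ind_nonneg _) (ind_nonneg _))
        fun _ => ⟨a, mem_univ _, ?_⟩
      rw [← ind_pos trivial]
      refine ind_le_sum (fun _ _ => mul_nonneg (ind_nonneg _) (ind_nonneg _)) fun _ =>
        ⟨J, mem_powersetCard.2 ⟨subset_univ _, hJ2⟩, ?_⟩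
      rw [ind_pos, ind_pos ⟨hV, fun t ht => mem_zs.1 (mem_sdiff.1 (hJ1 ht)).1⟩, mul_one]
      intro t ht
      have h6 := (mem_sdiff.1 (hJ1 ht)).2
      rw [mem_inter, not_and_or] at h6
      rcases h6 with h6 | h6
      exacts [⟨α, ha, h6⟩, ⟨β, hb, h6⟩]
  refine (ex_mono h1).trans ?_
  rw [ex_sum]
  have h2 : ∀ Z ∈ Fintype.piFinset fun _ : ι => K, ex (fun c : Fin n → ι → F =>
      (∑ α, ∑ β ∈ univ.erase α, ind (k < (Z α ∩ Z β).card + (ρ + 1))) * ind (V Z c)
        + ∑ a : ι → F, ∑ J ∈ powersetCard (ρ + 1) univ,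
          ind (∀ t ∈ J, ∃ i, a i ≠ 0 ∧ t ∉ Z i) * ind (V Z c ∧ ∀ t ∈ J, a ⬝ᵥ c t = 0))
      ≤ ((qq F)⁻¹ ^ k) ^ ρ * (∑ α, ∑ β ∈ univ.erase α, ind (k < (Z α ∩ Z β).card + (ρ + 1)))
        + ((qq F)⁻¹ ^ k) ^ ρ * ((n : ℝ) ^ (ρ + 1) * (qq F)⁻¹) := by
    intro Z hZ
    have h3 : ∑ i, (Z i).card = k * ρ := by
      rw [sum_congr rfl (g := fun _ => k) fun i _ =>
        (mem_powersetCard.1 (Fintype.mem_piFinset.1 hZ i)).2]
      simp [hρ, mul_comm]
    have h4 := ex_vanish (F := F) Z 0 ∅ (by simp)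
    simp only [notMem_empty, false_imp_iff, implies_true, and_true, card_empty, add_zero, h3] at h4
    rw [ex_add, ex_cmul, ex_sum]
    refine add_le_add (by rw [h4, pow_mul, mul_comm]) ?_
    refine (sum_le_card_nsmul _ _ ((n : ℝ) ^ (ρ + 1) * (qq F)⁻¹ ^ (k * ρ + (ρ + 1)))
      fun a _ => ?_).trans (le_of_eq ?_)
    · rw [ex_sum]
      refine (sum_le_card_nsmul _ _ ((qq F)⁻¹ ^ (k * ρ + (ρ + 1))) fun J hJ => ?_).trans ?_
      · rw [ex_cmul]
        by_cases h5 : ∀ t ∈ J, ∃ i, a i ≠ 0 ∧ t ∉ Z i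
        · rw [ind_pos h5, one_mul, ex_vanish Z a J h5, h3, (mem_powersetCard.1 hJ).2]
        · rw [ind_neg h5, zero_mul]
          positivity
      · rw [nsmul_eq_mul, card_powersetCard, card_univ, Fintype.card_fin]
        refine mul_le_mul_of_nonneg_right ?_ (by positivity)
        exact_mod_cast Nat.choose_le_pow _ _
    · simp only [card_univ, Fintype.card_pi, prod_const, nsmul_eq_mul, Nat.cast_pow, ← hρ,
        ← pow_mul, pow_add, pow_one, inv_pow]
      field_simp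
  refine (sum_le_sum h2).trans ?_
  rw [sum_add_distrib, ← mul_sum, sum_const, Fintype.card_piFinset, prod_const, card_univ, ← hρ,
    nsmul_eq_mul, mul_pow, mul_add, hK, card_powersetCard, card_univ, Fintype.card_fin]
  refine add_le_add ?_ (le_of_eq (by push_cast; ring))
  rw [mul_comm ((n.choose k : ℝ) ^ ρ), mul_assoc]
  refine mul_le_mul_of_nonneg_left ?_ (by positivity)
  rw [sum_comm, ← mul_div_assoc, le_div_iff₀ hN, sum_mul]
  refine (sum_le_card_nsmul _ _ (ρ * ((n.choose k : ℝ) ^ ρ *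
    (((ρ + 2) * n ^ (ρ + 1)) ^ 2 : ℕ))) fun α _ => ?_).trans (le_of_eq ?_)
  · rw [sum_comm, sum_mul]
    refine (sum_le_card_nsmul _ _ _ fun β hβ =>
      sum_close k (ρ + 1) hn (mem_erase.1 hβ).1.symm).trans ?_
    rw [nsmul_eq_mul]
    refine mul_le_mul_of_nonneg_right ?_ (by positivity)
    exact_mod_cast (card_erase_le.trans (card_univ.le))
  · rw [nsmul_eq_mul, card_univ, ← hρ]
    ring

end tau

end Pool.Agent.H.MP_498a73_pr
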