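import Pool.Agent.H.MP_498a73_pr.B

set_option linter.unusedSimpArgs false
set_option linter.unusedSectionVars false

open Finset Submodule
open scoped LinearAlgebra.Projectivization

namespace Pool.Agent.H.MP_498a73_pr

variable {F : Type} [Field F] [Fintype F] [DecidableEq F]

section bonf
variable {P V : Type} [Fintype P] [DecidableEq P] [AddCommGroup V] [Module F V] (v : P → V)

noncomputable def II (F : Type) [Field F] [Module F V] (v : P → V) (B : Finset P) (r : ℕ) : ℝ :=
  ∑ I ∈ powersetCard r univ, ind (LinearIndepOn F v (I : Set P) ∧ I ⊆ B)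

noncomputable def WW (F : Type) [Field F] [Module F V] (v : P → V) (B : Finset P) (r : ℕ) : ℝ :=
  ∑ I ∈ powersetCard r univ, ind (LinearIndepOn F v (I : Set P) ∧ I ⊆ B ∧
    ∃ y ∈ B, y ∉ I ∧ v y ∈ span F (v '' I))

lemma II_nonneg (B : Finset P) (r : ℕ) : 0 ≤ II F v B r := sum_nonneg fun _ _ => ind_nonneg _
lemma WW_nonneg (B : Finset P) (r : ℕ) : 0 ≤ WW F v B r := sum_nonneg fun _ _ => ind_nonneg _

lemma bonf1 (X R : ℕ) :
    |ind (X = 0) - ∑ r ∈ range (R + 1), (-1 : ℝ) ^ r * X.choose r| ≤ X.choose R := by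
  cases X with
  | zero =>
    rw [ind_pos rfl, sum_range_succ', sum_eq_zero (by simp)]
    simp
  | succ X =>
    have h := congrArg (Int.cast : ℤ → ℝ) (Int.alternating_sum_range_choose_eq_choose (n := X) (m := R))
    push_cast at h
    rw [ind_neg (by omega), h, zero_sub, abs_neg, abs_mul, abs_pow, abs_neg, abs_one, one_pow,
      one_mul, Nat.abs_cast]
    exact_mod_cast Nat.choose_le_choose R (Nat.le_succ X)

lemma bonf (B : Finset P) (R : ℕ) :
    |ind (B = ∅) - ∑ r ∈ range (R + 1), (-1 : ℝ) ^ r * II F v B r|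
      ≤ II F v B R + (R + 1) * 2 ^ (2 * R) * ∑ ρ ∈ range (2 * R + 1), WW F v B ρ := by
  have hW : 0 ≤ ∑ ρ ∈ range (2 * R + 1), WW F v B ρ := sum_nonneg fun _ _ => WW_nonneg v B _
  by_cases hD : ∀ S ⊆ B, S.card ≤ R → LinearIndepOn F v (S : Set P)
  · have h1 : ∀ r ≤ R, II F v B r = B.card.choose r := by
      intro r hr
      rw [II, ← card_powersetCard, sum_congr rfl (g := fun I => ind (I ⊆ B)) fun I hI =>
        ind_congr ⟨fun h => h.2, fun h => ⟨hD I h ((mem_powersetCard.1 hI).2.trans_le hr), h⟩⟩,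
        ← card_eq_sum]
      congr 2
      ext I
      simp [and_comm]
    rw [sum_congr rfl fun r hr => by rw [h1 r (Nat.lt_succ_iff.1 (mem_range.1 hr))], h1 R le_rfl,
      ind_congr card_eq_zero.symm]
    exact (bonf1 _ _).trans (le_add_of_nonneg_right (by positivity))
  · push Not at hD
    obtain ⟨S, hS, hSR, hd⟩ := hD
    have hB : B ≠ ∅ := by
      rintro rfl
      rw [subset_empty.1 hS] at hd
      exact hd (by simp)
    have h1 : ∀ r ≤ R, II F v B r ≤ 2 ^ (2 * R) * ∑ ρ ∈ range (2 * R + 1), WW F v B ρ := by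
      intro r hr
      let Q : Finset P → Prop := fun I => LinearIndepOn F v (I : Set P) ∧ I ⊆ B ∧
        ∃ y ∈ B, y ∉ I ∧ v y ∈ span F (v '' I)
      have h2 : ∀ I ∈ powersetCard r (univ : Finset P), ind (LinearIndepOn F v (I : Set P) ∧ I ⊆ B)
          ≤ ∑ ρ ∈ range (2 * R + 1), ∑ J ∈ powersetCard ρ univ, ind (Q J) * ind (I ⊆ J) := by
        intro I hI
        refine ind_le_sum (fun _ _ => sum_nonneg fun _ _ => mul_nonneg (ind_nonneg _)
          (ind_nonneg _)) ?_
        rintro ⟨h3, h4⟩
        obtain ⟨b, hb1, hb2, hb3, hb4⟩ := exists_linearIndepOn_extension h3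
          (t := ((I ∪ S : Finset P) : Set P)) (by simp)
        lift b to Finset P using Set.toFinite b
        have hb5 : b ⊆ I ∪ S := by exact_mod_cast hb1
        have hc : b.card ≤ 2 * R := by
          have := (card_le_card hb5).trans (card_union_le _ _)
          rw [(mem_powersetCard.1 hI).2] at this
          omega
        obtain ⟨y, hy1, hy2⟩ : ∃ y ∈ S, y ∉ b := by
          by_contra h
          push Not at h
          exact hd (hb4.mono fun y hy => h y hy)
        have hQ : Q b := ⟨hb4, hb5.trans (union_subset h4 hS), y, hS hy1, hy2,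
          hb3 ⟨y, by simp [hy1], rfl⟩⟩
        refine ⟨b.card, mem_range.2 (by omega), ?_⟩
        rw [← ind_pos trivial]
        refine ind_le_sum (fun _ _ => mul_nonneg (ind_nonneg _) (ind_nonneg _)) fun _ =>
          ⟨b, mem_powersetCard.2 ⟨subset_univ _, rfl⟩, ?_⟩
        rw [ind_pos hQ, ind_pos (by exact_mod_cast hb2), mul_one]
      refine (sum_le_sum h2).trans ?_
      rw [sum_comm, mul_sum]
      refine sum_le_sum fun ρ hρ => ?_
      rw [sum_comm, WW, mul_sum]
      refine sum_le_sum fun J hJ => ?_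
      rw [← mul_sum, mul_comm, ← card_eq_sum]
      refine mul_le_mul_of_nonneg_right ?_ (ind_nonneg _)
      have h5 : #{I ∈ powersetCard r univ | I ⊆ J} ≤ 2 ^ (2 * R) := by
        refine (card_le_card (t := J.powerset) fun I hI =>
          mem_powerset.2 (mem_filter.1 hI).2).trans ?_
        rw [card_powerset, (mem_powersetCard.1 hJ).2]
        exact Nat.pow_le_pow_right two_pos (Nat.lt_succ_iff.1 (mem_range.1 hρ))
      exact_mod_cast h5
    rw [ind_neg hB, zero_sub, abs_neg]
    refine (abs_sum_le_sum_abs _ _).trans (le_add_of_nonneg_of_le (II_nonneg v B R) ?_)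
    refine (sum_le_card_nsmul _ _ (2 ^ (2 * R) * ∑ ρ ∈ range (2 * R + 1), WW F v B ρ)
      fun r hr => ?_).trans (by simp [mul_assoc])
    rw [abs_mul, abs_pow, abs_neg, abs_one, one_pow, one_mul, abs_of_nonneg (II_nonneg v B r)]
    exact h1 r (Nat.lt_succ_iff.1 (mem_range.1 hr))

lemma card_span_le [Fintype V] (hv : Function.Injective v) (S : Finset P) :
    ∑ y, ind (v y ∈ span F (v '' S)) ≤ qq F ^ S.card := by
  classical
  rw [← card_eq_sum]
  have h1 : #{y | v y ∈ span F (v '' S)} ≤ Fintype.card (span F (v '' S)) := by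
    rw [← Fintype.card_coe]
    refine Fintype.card_le_of_injective (fun y => ⟨v y.1, (mem_filter.1 y.2).2⟩) fun a b h => ?_
    exact Subtype.ext (hv (congrArg Subtype.val h))
  rw [Module.card_eq_pow_finrank (K := F)] at h1
  have h2 : Module.finrank F (span F (v '' S)) ≤ S.card := by
    rw [← coe_image]
    exact (finrank_span_finset_le_card _).trans card_image_le
  exact_mod_cast h1.trans (Nat.pow_le_pow_right Fintype.card_pos h2)

lemma dep_le [Fintype V] (hv : Function.Injective v) (s : ℕ) :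
    ∑ I ∈ powersetCard (s + 1) (univ : Finset P), ind (¬ LinearIndepOn F v (I : Set P))
      ≤ (Fintype.card P : ℝ) ^ s * qq F ^ s := by
  have h1 : ∀ I ∈ powersetCard (s + 1) (univ : Finset P), ind (¬ LinearIndepOn F v (I : Set P))
      ≤ ∑ S ∈ powersetCard s univ, ∑ y, ind (v y ∈ span F (v '' S)) * ind (I = insert y S) := by
    intro I hI
    refine ind_le_sum (fun _ _ => sum_nonneg fun _ _ => mul_nonneg (ind_nonneg _)
      (ind_nonneg _)) fun h => ?_
    rw [linearIndepOn_iff_notMem_span] at h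
    push Not at h
    obtain ⟨y, hy, h⟩ := h
    refine ⟨I.erase y, mem_powersetCard.2 ⟨subset_univ _, by
      rw [card_erase_of_mem hy, (mem_powersetCard.1 hI).2]; rfl⟩, ?_⟩
    rw [← ind_pos trivial]
    refine ind_le_sum (fun _ _ => mul_nonneg (ind_nonneg _) (ind_nonneg _)) fun _ =>
      ⟨y, mem_univ _, ?_⟩
    rw [ind_pos (by simpa using h), ind_pos (insert_erase hy).symm, mul_one]
  refine (sum_le_sum h1).trans ?_
  rw [sum_comm]
  refine (sum_le_card_nsmul _ _ (qq F ^ s) fun S hS => ?_).trans ?_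
  · rw [sum_comm, ← (mem_powersetCard.1 hS).2]
    refine le_trans (sum_le_sum fun y _ => ?_) (card_span_le v hv S)
    rw [← mul_sum, ← card_eq_sum]
    refine mul_le_of_le_one_right (ind_nonneg _) ?_
    rw [filter_eq']
    split_ifs <;> simp
  · rw [nsmul_eq_mul, card_powersetCard, card_univ]
    refine mul_le_mul_of_nonneg_right ?_ (pow_nonneg q_pos.le _)
    exact_mod_cast Nat.choose_le_pow _ _

end bonf

abbrev PP (F : Type) [Field F] (k : ℕ) := ℙ F (Fin k → F)

noncomputable instance (k : ℕ) : Fintype (PP F k) := Fintype.ofFinite _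
noncomputable instance (k : ℕ) : DecidableEq (PP F k) := Classical.decEq _

lemma rep_inj (k : ℕ) : Function.Injective (Projectivization.rep : PP F k → Fin k → F) := by
  intro x y h
  rw [← x.mk_rep, ← y.mk_rep]
  simp only [h]

lemma rep_eq {k : ℕ} {x y : PP F k} {a : F} (h : y.rep = a • x.rep) : y = x := by
  rw [← x.mk_rep, ← y.mk_rep, Projectivization.mk_eq_mk_iff']
  exact ⟨a, h.symm⟩

noncomputable def MM (F : Type) [Field F] [Fintype F] (k : ℕ) : ℝ := Fintype.card (PP F k)

lemma MM_eq (k : ℕ) : MM F k * (qq F - 1) = qq F ^ k - 1 := by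
  have h := Projectivization.card' F (Fin k → F)
  simp only [Nat.card_eq_fintype_card, Fintype.card_pi, prod_const, card_univ,
    Fintype.card_fin] at h
  have h1 : 1 ≤ Fintype.card F := Fintype.card_pos
  have h2 := congrArg (Nat.cast : ℕ → ℝ) h
  push_cast [h1] at h2
  rw [MM]
  linarith

def word {n k : ℕ} (x : Fin k → F) (G : Fin n → Fin k → F) : Fin n → F := fun t => x ⬝ᵥ G t

open Classical in
noncomputable def BB (m : ℕ) {n k : ℕ} (G : Fin n → Fin k → F) : Finset (PP F k) :=
  {x | bad m (word x.rep G)}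

lemma mem_BB {m n k : ℕ} {G : Fin n → Fin k → F} {x : PP F k} :
    x ∈ BB m G ↔ bad m (word x.rep G) := by simp [BB]

noncomputable def P0 (F : Type) [Field F] [Fintype F] [DecidableEq F] (n k : ℕ) : ℝ :=
  ex fun G : Fin n → Fin k → F => ind (BB k G = ∅)

lemma ex_sub_BB {m n k : ℕ} {I : Finset (PP F k)}
    (hI : LinearIndepOn F Projectivization.rep (I : Set (PP F k))) :
    ex (fun G : Fin n → Fin k → F => ind (I ⊆ BB m G)) = pb F n m ^ I.card := by
  have h1 := ex_indep (τ := Fin n) (ι := I) hI fun c => ∏ i, ind (bad m fun t => c t i)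
  have h2 := ex_equiv (Equiv.piComm fun (_ : Fin n) (_ : I) => F)
    fun c => ∏ i, (fun _ c => ind (bad m c)) i (c i)
  rw [ex_pi (fun (_ : I) (c : Fin n → F) => ind (bad m c))] at h2
  rw [← Fintype.card_coe I, ← card_univ, ← prod_const, pb, ← h2]
  refine Eq.trans ?_ h1
  congr 1
  ext G
  rw [← ind_forall']
  apply ind_congr
  simp only [subset_iff, mem_BB, Subtype.forall]
  rfl

lemma ex_II (n k r : ℕ) : ex (fun G : Fin n → Fin k → F => II F Projectivization.rep (BB k G) r)
    = ((Fintype.card (PP F k)).choose r - ∑ I ∈ powersetCard r (univ : Finset (PP F k)),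
      ind (¬ LinearIndepOn F Projectivization.rep (I : Set (PP F k)))) * pb F n k ^ r := by
  simp only [II]
  rw [ex_sum, ← card_univ, ← card_powersetCard, card_eq_sum_ones, Nat.cast_sum, ← sum_sub_distrib,
    sum_mul]
  refine sum_congr rfl fun I hI => ?_
  simp only [ind_and, ex_cmul, ind_not, Nat.cast_one, sub_sub_cancel]
  by_cases h : LinearIndepOn F Projectivization.rep (I : Set (PP F k))
  · rw [ex_sub_BB h, (mem_powersetCard.1 hI).2]
  · rw [ind_neg h, zero_mul, zero_mul]

noncomputable def eps (n k ρ : ℕ) (q : ℝ) : ℝ :=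
  (ρ : ℝ) ^ 2 * (((ρ + 2) * n ^ (ρ + 1)) ^ 2 : ℕ) / n.choose k + (n : ℝ) ^ (ρ + 1) * q⁻¹

lemma ex_WW {n k : ℕ} (hn : 1 ≤ n) (hk : k ≤ n) (ρ : ℕ) :
    ex (fun G : Fin n → Fin k → F => WW F Projectivization.rep (BB k G) ρ)
      ≤ (MM F k * (n.choose k * (qq F)⁻¹ ^ k)) ^ ρ * eps n k ρ (qq F) := by
  have hq := q_pos (F := F)
  have he : 0 ≤ eps n k ρ (qq F) := by unfold eps; positivity
  simp only [WW]
  rw [ex_sum]
  refine (sum_le_card_nsmul _ _ ((n.choose k * (qq F)⁻¹ ^ k) ^ ρ * eps n k ρ (qq F))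
    fun I hI => ?_).trans ?_
  · by_cases h : LinearIndepOn F Projectivization.rep (I : Set (PP F k))
    · have h1 := tau_le (F := F) (ι := I) k hn hk
      rw [Fintype.card_coe, (mem_powersetCard.1 hI).2, ← ex_indep h] at h1
      refine le_trans (ex_mono fun G => ind_mono ?_) h1
      rintro ⟨-, h2, y, hy, hyI, h3⟩
      rw [Set.image_eq_range, mem_span_range_iff_exists_fun] at h3
      obtain ⟨a, ha⟩ := h3
      refine ⟨fun i => mem_BB.1 (h2 i.2), a, ?_, ?_⟩
      · by_contra h4
        push Not at h4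
        obtain ⟨α, hα⟩ : ∃ α, a α ≠ 0 := by
          by_contra h5
          push Not at h5
          exact y.rep_nonzero (by rw [← ha]; simp [h5])
        rw [sum_eq_single α (fun β _ hβ => by rw [h4 α β hβ.symm hα, zero_smul]) (by simp)] at ha
        exact hyI (rep_eq ha.symm ▸ α.2)
      · convert mem_BB.1 hy using 2 with t
        rw [word, ← ha, sum_dotProduct, dotProduct]
        exact sum_congr rfl fun i _ => by rw [smul_dotProduct, smul_eq_mul]
    · simp only [h, false_and, ind_neg not_false, ex_const]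
      positivity
  · rw [nsmul_eq_mul, card_powersetCard, card_univ, mul_pow (MM F k), mul_assoc]
    refine mul_le_mul_of_nonneg_right ?_ (by positivity)
    rw [MM]
    exact_mod_cast Nat.choose_le_pow _ _

lemma P0_bonf {n k : ℕ} (R : ℕ) :
    |P0 F n k - ∑ r ∈ range (R + 1), (-1 : ℝ) ^ r *
        ex (fun G : Fin n → Fin k → F => II F Projectivization.rep (BB k G) r)|
      ≤ ex (fun G : Fin n → Fin k → F => II F Projectivization.rep (BB k G) R)
        + (R + 1) * 2 ^ (2 * R) * ∑ ρ ∈ range (2 * R + 1),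
          ex (fun G : Fin n → Fin k → F => WW F Projectivization.rep (BB k G) ρ) := by
  simp only [← ex_cmul, ← ex_sum, P0, ← ex_sub, ← ex_add]
  exact (abs_ex_le _).trans (ex_mono fun G => bonf _ _ R)

end Pool.Agent.H.MP_498a73_pr
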