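import Pool.Agent.H.MP_498a73_pr.C

set_option linter.unusedSimpArgs false
set_option linter.unusedSectionVars false

open Finset Submodule
open scoped LinearAlgebra.Projectivization

namespace Pool.Agent.H.MP_498a73_pr

variable {F : Type} [Field F] [Fintype F] [DecidableEq F]

lemma good_iff {m n k : ℕ} {G : Fin n → Fin k → F} :
    BB m G = ∅ ↔ ∀ x, x ≠ 0 → ¬ bad m (word x G) := by
  simp only [eq_empty_iff_forall_notMem, mem_BB]
  refine ⟨fun h x hx hb => h (Projectivization.mk F x hx) (le_trans hb (card_le_card fun t ht => ?_)),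
    fun h x => h _ x.rep_nonzero⟩
  obtain ⟨a, ha⟩ := Projectivization.exists_smul_eq_mk_rep F x hx
  rw [mem_zs, word] at ht ⊢
  rw [← ha, Units.smul_def, smul_dotProduct, ht, smul_zero]

lemma exists_vanish {n k : ℕ} (G : Fin n → Fin k → F) (U : Finset (Fin n)) (hU : U.card < k) :
    ∃ x, x ≠ 0 ∧ U ⊆ zs (word x G) := by
  let φ : (Fin k → F) →ₗ[F] (U → F) := Matrix.mulVecLin (Matrix.of fun t : U => G t)
  have h := LinearMap.ker_ne_bot_of_finrank_lt (f := φ) (by simpa using hU)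
  obtain ⟨x, hx, h0⟩ := (Submodule.ne_bot_iff _).1 h
  refine ⟨x, h0, fun t ht => ?_⟩
  rw [mem_zs, word, dotProduct_comm]
  exact congrFun (LinearMap.mem_ker.1 hx) ⟨t, ht⟩

open Classical in
noncomputable def HH (m : ℕ) {n k : ℕ} (G : Fin n → Fin k → F) : Finset (PP F k) :=
  {x | (zs (word x.rep G)).card = m}

lemma mem_HH {m n k : ℕ} {G : Fin n → Fin k → F} {x : PP F k} :
    x ∈ HH m G ↔ (zs (word x.rep G)).card = m := by simp [HH]

lemma good_cons {m j : ℕ} (v : Fin (m + 1) → F) (G : Fin j → Fin (m + 1) → F) :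
    BB (m + 1) (Fin.cons v G : Fin (j + 1) → Fin (m + 1) → F) = ∅ ↔
      BB (m + 1) G = ∅ ∧ ∀ x ∈ HH m G, ¬ x.rep ⬝ᵥ v = 0 := by
  have h1 : ∀ x : Fin (m + 1) → F, (zs (word x (Fin.cons v G : Fin (j + 1) → Fin (m + 1) → F))).card
      = (if x ⬝ᵥ v = 0 then 1 else 0) + (zs (word x G)).card := by
    intro x
    rw [zs, Fin.card_filter_univ_succ']
    rfl
  simp only [eq_empty_iff_forall_notMem, mem_BB, mem_HH, bad, h1, ← forall_and]
  refine forall_congr' fun x => ?_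
  by_cases h : x.rep ⬝ᵥ v = 0 <;> simp [h] <;> omega

lemma card_HH {m j : ℕ} (hj : m + 1 ≤ j) {G : Fin j → Fin (m + 1) → F} (hG : BB (m + 1) G = ∅) :
    (HH m G).card = j.choose m := by
  rw [show j.choose m = (powersetCard m (univ : Finset (Fin j))).card by simp]
  have hG' := good_iff.1 hG
  refine card_bij (fun x _ => zs (word x.rep G))
    (fun x hx => mem_powersetCard.2 ⟨subset_univ _, mem_HH.1 hx⟩) ?_ ?_
  · intro x hx y _ h
    obtain ⟨t, -, ht⟩ := exists_mem_notMem_of_card_lt_card (s := zs (word x.rep G)) (t := univ)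
      (by rw [mem_HH.1 hx]; simpa using hj)
    by_contra hne
    have h1 : y.rep ⬝ᵥ G t ≠ 0 := fun h1 => ht (h ▸ mem_zs.2 h1)
    refine hG' ((y.rep ⬝ᵥ G t) • x.rep - (x.rep ⬝ᵥ G t) • y.rep) (fun h2 => hne ?_) ?_
    · refine rep_eq (a := (y.rep ⬝ᵥ G t)⁻¹ * (x.rep ⬝ᵥ G t)) ?_
      rw [mul_smul, ← sub_eq_zero.1 h2, smul_smul, inv_mul_cancel₀ h1, one_smul]
    · unfold bad
      refine le_trans (by rw [card_insert_of_notMem ht, mem_HH.1 hx])
        (card_le_card (s := insert t (zs (word x.rep G))) fun s hs => ?_)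
      rw [mem_zs, word, sub_dotProduct, smul_dotProduct, smul_dotProduct]
      rcases mem_insert.1 hs with rfl | hs
      · simp [mul_comm]
      · have h3 : x.rep ⬝ᵥ G s = 0 := mem_zs.1 hs
        have h4 : y.rep ⬝ᵥ G s = 0 := mem_zs.1 (h ▸ hs : s ∈ zs (word y.rep G))
        simp [h3, h4]
  · intro U hU
    have hc := (mem_powersetCard.1 hU).2
    obtain ⟨x, hx, h1⟩ := exists_vanish G U (by omega)
    obtain ⟨a, ha⟩ := Projectivization.exists_smul_eq_mk_rep F x hx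
    have h2 : U ⊆ zs (word (Projectivization.mk F x hx).rep G) := fun t ht => by
      have := h1 ht
      rw [mem_zs, word] at this ⊢
      rw [← ha, Units.smul_def, smul_dotProduct, this, smul_zero]
    have h3 := hG' _ (Projectivization.mk F x hx).rep_nonzero
    unfold bad at h3
    have h4 := eq_of_subset_of_card_le h2 (by omega)
    exact ⟨_, mem_HH.2 (h4 ▸ hc), h4.symm⟩

lemma ex_one {k : ℕ} (x : PP F k) : ex (fun v : Fin k → F => ind (x.rep ⬝ᵥ v = 0)) = (qq F)⁻¹ := by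
  obtain ⟨j, hj⟩ := Function.ne_iff.1 x.rep_nonzero
  simpa using col2 (F := F) ∅ x.rep (j := j) (by simp) hj

lemma ex_two {k : ℕ} {x y : PP F k} (h : x ≠ y) :
    ex (fun v : Fin k → F => ind (x.rep ⬝ᵥ v = 0) * ind (y.rep ⬝ᵥ v = 0)) = (qq F)⁻¹ ^ 2 := by
  have h1 := Projectivization.linearIndependent_pair_iff_ne.2 h
  let φ : (Fin k → F) →+ (Fin 2 → F) := AddMonoidHom.mk' (fun v i => ![x.rep, y.rep] i ⬝ᵥ v) (by
    intro v w
    ext i
    simp)
  have h2 := ex_map φ (fun w => by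
    obtain ⟨v, hv⟩ := pair_surj h1 w
    exact ⟨v, funext hv⟩) fun w => ind (∀ i ∈ univ, w i = 0)
  rw [col1] at h2
  simpa [φ, Fin.forall_fin_two, ind_and] using h2

lemma avoid_bounds {k : ℕ} (H : Finset (PP F k)) :
    1 - H.card * (qq F)⁻¹ ≤ ex (fun v : Fin k → F => ind (∀ x ∈ H, ¬ x.rep ⬝ᵥ v = 0)) ∧
    ex (fun v : Fin k → F => ind (∀ x ∈ H, ¬ x.rep ⬝ᵥ v = 0))
      ≤ 1 - H.card * (qq F)⁻¹ + (H.card * (qq F)⁻¹) ^ 2 := by
  have h0 : ex (fun v : Fin k → F => 1 - ∑ x ∈ H, ind (x.rep ⬝ᵥ v = 0))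
      = 1 - H.card * (qq F)⁻¹ := by
    rw [ex_sub, ex_const, ex_sum]
    simp [ex_one]
  constructor
  · rw [← h0]
    refine ex_mono fun v => ?_
    have h1 : ind (¬ ∀ x ∈ H, ¬ x.rep ⬝ᵥ v = 0) ≤ ∑ x ∈ H, ind (x.rep ⬝ᵥ v = 0) := by
      refine ind_le_sum (fun _ _ => ind_nonneg _) fun h => ?_
      push Not at h
      obtain ⟨x, hx, h⟩ := h
      exact ⟨x, hx, (ind_pos h).ge⟩
    rw [ind_not] at h1
    linarith
  · have h1 : ∀ v : Fin k → F, ind (∀ x ∈ H, ¬ x.rep ⬝ᵥ v = 0)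
        ≤ 1 - ∑ x ∈ H, ind (x.rep ⬝ᵥ v = 0)
          + ∑ x ∈ H, ∑ y ∈ H.erase x, ind (x.rep ⬝ᵥ v = 0) * ind (y.rep ⬝ᵥ v = 0) := by
      intro v
      have h2 : ∑ x ∈ H, ∑ y ∈ H.erase x, ind (x.rep ⬝ᵥ v = 0) * ind (y.rep ⬝ᵥ v = 0)
          = (∑ x ∈ H, ind (x.rep ⬝ᵥ v = 0)) ^ 2 - ∑ x ∈ H, ind (x.rep ⬝ᵥ v = 0) := by
        rw [pow_two, sum_mul_sum, ← sum_sub_distrib]
        refine sum_congr rfl fun x hx => ?_
        rw [← add_sum_erase _ _ hx, ← ind_and, and_self]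
        ring
      rw [h2]
      by_cases h : ∀ x ∈ H, ¬ x.rep ⬝ᵥ v = 0
      · rw [ind_pos h, sum_eq_zero fun x hx => ind_neg (h x hx)]
        norm_num
      · rw [ind_neg h]
        nlinarith [sq_nonneg (∑ x ∈ H, ind (x.rep ⬝ᵥ v = 0) - 1)]
    refine (ex_mono h1).trans ?_
    rw [ex_add, h0, ex_sum]
    refine add_le_add le_rfl ((sum_le_card_nsmul _ _ (H.card * (qq F)⁻¹ ^ 2)
      fun x _ => ?_).trans (le_of_eq (by rw [nsmul_eq_mul]; ring)))
    rw [ex_sum, sum_congr rfl fun y hy => ex_two (mem_erase.1 hy).1.symm, sum_const, nsmul_eq_mul]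
    refine mul_le_mul_of_nonneg_right ?_ (pow_nonneg (inv_pos.2 q_pos).le _)
    exact_mod_cast card_erase_le

lemma P0_step {m j : ℕ} (hj : m + 1 ≤ j) :
    P0 F j (m + 1) * (1 - j.choose m * (qq F)⁻¹) ≤ P0 F (j + 1) (m + 1) ∧
    P0 F (j + 1) (m + 1)
      ≤ P0 F j (m + 1) * (1 - j.choose m * (qq F)⁻¹ + (j.choose m * (qq F)⁻¹) ^ 2) := by
  have h1 : P0 F (j + 1) (m + 1) = ex fun G : Fin j → Fin (m + 1) → F => ind (BB (m + 1) G = ∅) *
      ex fun v : Fin (m + 1) → F => ind (∀ x ∈ HH m G, ¬ x.rep ⬝ᵥ v = 0) := by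
    rw [P0, ← ex_equiv ((Equiv.prodComm _ _).trans (Fin.consEquiv fun _ => Fin (m + 1) → F)),
      ex_prod]
    congr 1
    ext G
    rw [← ex_cmul]
    congr 1
    ext v
    rw [← ind_and]
    exact ind_congr (good_cons v G)
  rw [h1, P0, ← ex_mulc, ← ex_mulc]
  constructor <;> refine ex_mono fun G => ?_ <;> by_cases h : BB (m + 1) G = ∅
  · rw [← card_HH hj h]
    exact mul_le_mul_of_nonneg_left (avoid_bounds _).1 (ind_nonneg _)
  · simp [ind_neg h]
  · rw [← card_HH hj h]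
    exact mul_le_mul_of_nonneg_left (avoid_bounds _).2 (ind_nonneg _)
  · simp [ind_neg h]

lemma P0_nonneg (n k : ℕ) : 0 ≤ P0 F n k := ex_nonneg fun _ => ind_nonneg _
lemma P0_le_one (n k : ℕ) : P0 F n k ≤ 1 := ex_le_one _

lemma MM_le (k : ℕ) : MM F k * (qq F)⁻¹ ^ k ≤ 2 * (qq F)⁻¹ := by
  have h1 := MM_eq (F := F) k
  have h2 := two_le_q (F := F)
  have h3 : 0 ≤ MM F k := Nat.cast_nonneg _
  rw [inv_pow, ← div_eq_mul_inv, ← div_eq_mul_inv, div_le_div_iff₀ (by positivity) (by positivity)]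
  nlinarith

lemma full_ge {n k : ℕ} (h : k ≤ n) :
    1 - 2 * (qq F)⁻¹ ≤ ex fun G : Fin n → Fin k → F => ind (BB n G = ∅) := by
  have h1 : ∀ G : Fin n → Fin k → F, 1 - ∑ x : PP F k, ind ({x} ⊆ BB n G) ≤ ind (BB n G = ∅) := by
    intro G
    have h2 : ind (¬ BB n G = ∅) ≤ ∑ x : PP F k, ind ({x} ⊆ BB n G) := by
      refine ind_le_sum (fun _ _ => ind_nonneg _) fun h => ?_
      obtain ⟨x, hx⟩ := nonempty_iff_ne_empty.2 h
      exact ⟨x, mem_univ _, (ind_pos (by simpa using hx)).ge⟩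
    rw [ind_not] at h2
    linarith
  refine le_trans ?_ (ex_mono h1)
  rw [ex_sub, ex_const, ex_sum, sum_congr rfl fun x _ => ex_sub_BB (by
    simpa using x.rep_nonzero)]
  simp only [card_singleton, pow_one, sum_const, card_univ, nsmul_eq_mul]
  have h3 := pb_le (F := F) n n
  rw [Nat.choose_self, Nat.cast_one, one_mul] at h3
  have h4 := two_le_q (F := F)
  have h5 : (qq F)⁻¹ ^ n ≤ (qq F)⁻¹ ^ k :=
    pow_le_pow_of_le_one (by positivity) (inv_le_one_of_one_le₀ (by linarith)) h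
  have h6 := MM_le (F := F) k
  have h7 : MM F k * pb F n n ≤ MM F k * (qq F)⁻¹ ^ k :=
    mul_le_mul_of_nonneg_left (h3.trans h5) (Nat.cast_nonneg _)
  rw [MM] at h6 h7
  linarith

lemma P0_bounds {m n : ℕ} (hn : m + 1 ≤ n) {δ : ℝ} (hδ : (n - 1).choose m * (qq F)⁻¹ ≤ δ)
    (hδ2 : δ ≤ 1 / 2) :
    (1 - 2 * (qq F)⁻¹) * Real.exp (-(1 + 2 * δ) * ((n.choose (m + 1) - 1) * (qq F)⁻¹))
      ≤ P0 F n (m + 1) ∧
    P0 F n (m + 1) ≤ Real.exp (-(1 - δ) * ((n.choose (m + 1) - 1) * (qq F)⁻¹)) := by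
  induction n, hn using Nat.le_induction with
  | base =>
    simp only [Nat.choose_self, Nat.cast_one, sub_self, zero_mul, mul_zero, Real.exp_zero, mul_one]
    exact ⟨full_ge le_rfl, P0_le_one _ _⟩
  | succ j hj ih =>
    have hq := inv_pos.2 (q_pos (F := F))
    have h2 := two_le_q (F := F)
    rw [Nat.add_sub_cancel] at hδ
    obtain ⟨i1, i2⟩ := ih (le_trans (mul_le_mul_of_nonneg_right
      (by exact_mod_cast Nat.choose_le_choose m (Nat.sub_le j 1)) hq.le) hδ)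
    obtain ⟨s1, s2⟩ := P0_step (F := F) hj
    have h3 : (((j + 1).choose (m + 1) : ℝ) - 1) * (qq F)⁻¹
        = (j.choose (m + 1) - 1) * (qq F)⁻¹ + j.choose m * (qq F)⁻¹ := by
      rw [Nat.choose_succ_succ']
      push_cast
      ring
    set x := j.choose m * (qq F)⁻¹
    have x0 : 0 ≤ x := by positivity
    rw [h3, mul_add, mul_add, Real.exp_add, Real.exp_add]
    constructor
    · refine le_trans ?_ s1
      rw [← mul_assoc]
      refine mul_le_mul i1 ?_ (Real.exp_pos _).le (P0_nonneg _ _)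
      have h4 := Real.add_one_le_exp ((1 + 2 * δ) * x)
      rw [neg_mul, Real.exp_neg, inv_le_iff_one_le_mul₀ (Real.exp_pos _)]
      have h5 : (1 - x) * ((1 + 2 * δ) * x + 1) ≤ (1 - x) * Real.exp ((1 + 2 * δ) * x) :=
        mul_le_mul_of_nonneg_left h4 (by linarith)
      have h6 : 0 ≤ x * (2 * δ - (1 + 2 * δ) * x) := mul_nonneg x0 (by nlinarith)
      nlinarith
    · refine s2.trans (mul_le_mul i2 ?_ (by nlinarith) (Real.exp_pos _).le)
      have h4 := Real.add_one_le_exp (-(1 - δ) * x)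
      nlinarith

end Pool.Agent.H.MP_498a73_pr
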