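import Mathlib

namespace Pool.Agent.H.MP_498a73_pr

/-- The minimum Hamming distance of the linear code `C` equals `n - k + 1`. -/
def IsMDS {F : Type} [Field F] [DecidableEq F] {n : ℕ} (k : ℕ) (C : Submodule F (Fin n → F)) :
    Prop :=
  IsLeast {w | ∃ c ∈ C, c ≠ 0 ∧ hammingNorm c = w} (n - k + 1)

/-- The proportion of MDS codes among all `k`-dimensional subspaces of `F^n`. -/
noncomputable def probMDS (F : Type) [Field F] [DecidableEq F] (n k : ℕ) : ℝ :=
  (Nat.card {C : Submodule F (Fin n → F) // Module.finrank F C = k ∧ IsMDS k C} : ℝ) /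
    Nat.card {C : Submodule F (Fin n → F) // Module.finrank F C = k}

end Pool.Agent.H.MP_498a73_pr
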