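import Pool.Agent.H.MP_498a73_pr.D
import Pool.Agent.H.MP_498a73_pr.Defs

set_option linter.unusedSimpArgs false
set_option linter.unusedSectionVars false

open Finset Submodule Module

namespace Pool.Agent.H.MP_498a73_pr

variable {F : Type} [Field F] [Fintype F] [DecidableEq F]

lemma card_fib {G H : Type*} [Finite G] [Finite H] (π : G → H) (s : Set H) (c : ℕ)
    (h : ∀ b ∈ s, Nat.card {g // π g = b} = c) : Nat.card {g // π g ∈ s} = c * Nat.card s := by
  have e : {g // π g ∈ s} ≃ Σ b : s, {g // π g = b} :=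
    { toFun := fun g => ⟨⟨π g, g.2⟩, g, rfl⟩
      invFun := fun x => ⟨x.2.1, by rw [x.2.2]; exact x.1.2⟩
      left_inv := fun g => rfl
      right_inv := by
        rintro ⟨⟨b, hb⟩, g, hg⟩
        simp only at hg
        subst hg
        rfl }
  have := Fintype.ofFinite s
  rw [Nat.card_congr e, Nat.card_sigma, Finset.sum_congr rfl (fun (b : s) _ => h b b.2)]
  simp [mul_comm]

def MD (k : ℕ) {n : ℕ} (C : Submodule F (Fin n → F)) : Prop := ∀ c ∈ C, c ≠ 0 → ¬ bad k c

lemma norm_add_zs {n : ℕ} (c : Fin n → F) : hammingNorm c + (zs c).card = n := by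
  rw [hammingNorm, zs, add_comm]
  simpa using card_filter_add_card_filter_not (s := univ) fun t => c t = 0

lemma restr_ker {n : ℕ} (C : Submodule F (Fin n → F)) (U : Finset (Fin n))
    (hU : U.card < finrank F C) : ∃ c ∈ C, c ≠ 0 ∧ U ⊆ zs c := by
  let φ : C →ₗ[F] (U → F) := (LinearMap.funLeft F F Subtype.val).comp C.subtype
  have h := LinearMap.ker_ne_bot_of_finrank_lt (f := φ) (by simpa using hU)
  obtain ⟨x, hx, h0⟩ := (Submodule.ne_bot_iff _).1 h
  exact ⟨x.1, x.2, fun h => h0 (Subtype.ext h), fun t ht =>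
    mem_zs.2 (congrFun (LinearMap.mem_ker.1 hx) ⟨t, ht⟩)⟩

lemma mds_iff {n k : ℕ} (h1 : 1 ≤ k) (h2 : k ≤ n) {C : Submodule F (Fin n → F)}
    (hC : finrank F C = k) : IsMDS k C ↔ MD k C := by
  constructor
  · intro h c hc h0 hb
    have h3 := h.2 ⟨c, hc, h0, rfl⟩
    have h4 := norm_add_zs c
    unfold bad at hb
    omega
  · intro h
    constructor
    · obtain ⟨U, -, hU⟩ := exists_subset_card_eq (s := (univ : Finset (Fin n))) (n := k - 1)
        (by simp; omega)
      obtain ⟨c, hc, h0, h3⟩ := restr_ker C U (by omega)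
      refine ⟨c, hc, h0, ?_⟩
      have h4 := norm_add_zs c
      have h5 := h c hc h0
      have h6 := card_le_card h3
      unfold bad at h5
      omega
    · rintro w ⟨c, hc, h0, rfl⟩
      have h4 := norm_add_zs c
      have h5 := h c hc h0
      unfold bad at h5
      omega

noncomputable def BF (F : Type) [Field F] (n : ℕ) : LinearMap.BilinForm F (Fin n → F) :=
  dotProductBilin F F

lemma BF_apply {n : ℕ} (x y : Fin n → F) : BF F n x y = x ⬝ᵥ y := rfl

lemma BF_refl (n : ℕ) : (BF F n).IsRefl := fun x y h => by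
  rw [BF_apply, dotProduct_comm]
  exact h

lemma BF_nd (n : ℕ) : (BF F n).Nondegenerate := by
  refine (BF_refl (F := F) n).nondegenerate_iff_separatingLeft.2 fun x hx => ?_
  ext i
  simpa [BF_apply] using hx (Pi.single i 1)

lemma MD_orth {n k : ℕ} (h2 : k ≤ n) {C : Submodule F (Fin n → F)} (hC : finrank F C = k)
    (h : MD k C) : MD (n - k) ((BF F n).orthogonal C) := by
  intro y hy h0 hb
  obtain ⟨S, hS1, hS2⟩ := exists_superset_card_eq (s := (zs y)ᶜ) (n := k)
    (by rw [card_compl, Fintype.card_fin]; unfold bad at hb; omega) (by simpa using h2)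
  let φ : C →ₗ[F] (S → F) := (LinearMap.funLeft F F Subtype.val).comp C.subtype
  have h1 : Function.Injective φ := by
    rw [injective_iff_map_eq_zero]
    intro c hc
    by_contra h3
    refine h c.1 c.2 (fun h => h3 (Subtype.ext h)) (hS2 ▸ card_le_card fun t ht => ?_)
    exact mem_zs.2 (congrFun hc ⟨t, ht⟩)
  have h3 := (LinearMap.injective_iff_surjective_of_finrank_eq_finrank (by simp [hC, hS2])).1 h1
  obtain ⟨t, ht⟩ := Function.ne_iff.1 h0
  have ht' : t ∈ S := hS1 (mem_compl.2 fun h => ht (mem_zs.1 h))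
  obtain ⟨c, hc⟩ := h3 (Pi.single ⟨t, ht'⟩ 1)
  have h4 : c.1 ⬝ᵥ y = 0 := hy c.1 c.2
  rw [dotProduct, sum_eq_single t ?_ (by simp)] at h4
  · have h5 : c.1 t = 1 := by simpa [φ] using congrFun hc ⟨t, ht'⟩
    rw [h5, one_mul] at h4
    exact ht h4
  · intro s _ hs
    by_cases h6 : s ∈ S
    · have h7 : c.1 s = 0 := by
        have := congrFun hc ⟨s, h6⟩
        rw [Pi.single_eq_of_ne (fun h => hs (congrArg Subtype.val h))] at this
        exact this
      rw [h7, zero_mul]
    · have h7 : y s = 0 := by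
        by_contra h8
        exact h6 (hS1 (mem_compl.2 fun h => h8 (mem_zs.1 h)))
      rw [h7, mul_zero]

lemma card_dual_le {n : ℕ} (P Q : Submodule F (Fin n → F) → Prop)
    (h : ∀ C, P C → Q ((BF F n).orthogonal C)) : Nat.card {C // P C} ≤ Nat.card {C // Q C} := by
  refine Nat.card_le_card_of_injective (fun C => ⟨_, h C.1 C.2⟩) fun C D hCD => Subtype.ext ?_
  have h1 := congrArg (fun X => (BF F n).orthogonal X.1) hCD
  simpa [LinearMap.BilinForm.orthogonal_orthogonal (BF_nd (F := F) n) (BF_refl (F := F) n)] using h1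

lemma prob_eq {n k : ℕ} (h1 : 1 ≤ k) (h2 : k ≤ n) : probMDS F n k =
    (Nat.card {C : Submodule F (Fin n → F) // finrank F C = k ∧ MD k C} : ℝ) /
      Nat.card {C : Submodule F (Fin n → F) // finrank F C = k} := by
  rw [probMDS, Nat.card_congr (Equiv.subtypeEquivRight fun C =>
    and_congr_right fun hC => mds_iff h1 h2 hC)]

lemma prob_dual {n k : ℕ} (h1 : 1 ≤ k) (h2 : k < n) : probMDS F n k = probMDS F n (n - k) := by
  have hr : ∀ C : Submodule F (Fin n → F), finrank F ((BF F n).orthogonal C) = n - finrank F C :=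
    fun C => by simp [LinearMap.BilinForm.finrank_orthogonal (BF_nd (F := F) n)]
  rw [prob_eq h1 h2.le, prob_eq (by omega) (by omega)]
  congr 2
  · refine le_antisymm (card_dual_le _ _ fun C hC => ⟨by rw [hr, hC.1], MD_orth h2.le hC.1 hC.2⟩)
      (card_dual_le _ _ fun C hC => ⟨by rw [hr, hC.1]; omega, ?_⟩)
    have := MD_orth (Nat.sub_le n k) hC.1 hC.2
    rwa [Nat.sub_sub_self h2.le] at this
  · exact le_antisymm (card_dual_le _ _ fun C hC => by rw [hr, hC])
      (card_dual_le _ _ fun C hC => by rw [hr, hC]; omega)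

lemma fib_card {n k : ℕ} (C : Submodule F (Fin n → F)) (hC : finrank F C = k) :
    Nat.card {f : {f : (Fin k → F) →ₗ[F] (Fin n → F) // Function.Injective f} //
      LinearMap.range f.1 = C}
    = Nat.card {g : (Fin k → F) →ₗ[F] (Fin k → F) // Function.Injective g} := by
  let e : (Fin k → F) ≃ₗ[F] C := LinearEquiv.ofFinrankEq _ _ (by simp [hC])
  symm
  refine Nat.card_eq_of_bijective (fun g => ⟨⟨C.subtype ∘ₗ e.toLinearMap ∘ₗ g.1,
    C.injective_subtype.comp (e.injective.comp g.2)⟩, ?_⟩) ⟨fun g g' h => ?_, fun f => ?_⟩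
  · have h1 : Function.Surjective (e.toLinearMap ∘ₗ g.1) :=
      e.surjective.comp (LinearMap.injective_iff_surjective.1 g.2)
    rw [LinearMap.range_comp, LinearMap.range_eq_top.2 h1, Submodule.map_subtype_top]
  · refine Subtype.ext (LinearMap.ext fun x => e.injective (Subtype.ext ?_))
    exact LinearMap.congr_fun (congrArg (fun z => z.1.1) h) x
  · have h1 : ∀ x, f.1.1 x ∈ C := fun x => f.2.le (LinearMap.mem_range_self _ x)
    refine ⟨⟨e.symm.toLinearMap ∘ₗ f.1.1.codRestrict C h1, e.symm.injective.comp fun x y h =>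
      f.1.2 (congrArg Subtype.val h)⟩, Subtype.ext (Subtype.ext (LinearMap.ext fun x => ?_))⟩
    simp

lemma ex_BB {n k m : ℕ} (hm : m ≤ n) : ex (fun G : Fin n → Fin k → F => ind (BB m G = ∅))
    = (Nat.card {g : (Fin k → F) →ₗ[F] (Fin k → F) // Function.Injective g} *
      Nat.card {C : Submodule F (Fin n → F) // finrank F C = k ∧ MD m C} : ℕ)
        / Fintype.card (Fin n → Fin k → F) := by
  classical
  have : Finite ((Fin k → F) →ₗ[F] (Fin n → F)) := Finite.of_injective _ DFunLike.coe_injective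
  have h1 := card_fib (fun f : {f : (Fin k → F) →ₗ[F] (Fin n → F) // Function.Injective f} =>
    LinearMap.range f.1) {C | finrank F C = k ∧ MD m C} _ fun C hC => fib_card C hC.1
  rw [ex, ← card_eq_sum, ← Fintype.card_subtype, ← Nat.card_eq_fintype_card]
  congr 2
  refine Eq.trans ?_ h1
  have hw : ∀ (G : Fin n → Fin k → F) x, Matrix.toLin' (Matrix.of G) x = word x G := by
    intro G x
    ext t
    rw [word, dotProduct_comm]
    rfl
  have h2 : ∀ G : Fin n → Fin k → F, BB m G = ∅ →
      Function.Injective (Matrix.toLin' (Matrix.of G)) := by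
    intro G hG
    rw [injective_iff_map_eq_zero]
    intro x hx
    by_contra h0
    refine good_iff.1 hG x h0 ?_
    rw [← hw, hx]
    simpa [bad, zs] using hm
  refine Nat.card_eq_of_bijective (fun G => ⟨⟨Matrix.toLin' (Matrix.of G.1), h2 _ G.2⟩, ?_, ?_⟩)
    ⟨fun G G' h => ?_, fun f => ?_⟩
  · simp [LinearMap.finrank_range_of_inj (h2 _ G.2)]
  · rintro c ⟨x, rfl⟩ h0
    rw [hw]
    exact good_iff.1 G.2 x fun h => h0 (by simp [h])
  · exact Subtype.ext (Matrix.toLin'.injective (congrArg (fun z => z.1.1) h))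
  · obtain ⟨G, hG⟩ := Matrix.toLin'.surjective f.1.1
    refine ⟨⟨G, good_iff.2 fun x hx => ?_⟩, Subtype.ext (Subtype.ext hG)⟩
    have h3 : word x G = f.1.1 x := (hw G x).symm.trans (LinearMap.congr_fun hG x)
    rw [h3]
    exact f.2.2 _ ⟨x, rfl⟩ fun h => hx ((injective_iff_map_eq_zero _).1 f.1.2 x h)

lemma prob_link {n k : ℕ} (h1 : 1 ≤ k) (h2 : k ≤ n) :
    probMDS F n k = P0 F n k / ex fun G : Fin n → Fin k → F => ind (BB n G = ∅) := by
  have : Finite ((Fin k → F) →ₗ[F] (Fin k → F)) := Finite.of_injective _ DFunLike.coe_injective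
  have : Nonempty {g : (Fin k → F) →ₗ[F] (Fin k → F) // Function.Injective g} :=
    ⟨⟨LinearMap.id, Function.injective_id⟩⟩
  have h3 : (Nat.card {g : (Fin k → F) →ₗ[F] (Fin k → F) // Function.Injective g} : ℝ) ≠ 0 := by
    exact_mod_cast Nat.card_pos.ne'
  have h4 : (Fintype.card (Fin n → Fin k → F) : ℝ) ≠ 0 := by exact_mod_cast Fintype.card_ne_zero
  have h5 : Nat.card {C : Submodule F (Fin n → F) // finrank F C = k ∧ MD n C}
      = Nat.card {C : Submodule F (Fin n → F) // finrank F C = k} := by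
    refine Nat.card_congr (Equiv.subtypeEquivRight fun C => and_iff_left fun c _ h0 hb => h0 ?_)
    have := norm_add_zs c
    unfold bad at hb
    exact hammingNorm_eq_zero.1 (by omega)
  rw [prob_eq h1 h2, P0, ex_BB h2, ex_BB le_rfl, h5, div_div_div_cancel_right₀ h4, Nat.cast_mul,
    Nat.cast_mul, mul_div_mul_left _ _ h3]

end Pool.Agent.H.MP_498a73_pr
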