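import Pool.Agent.H.MP_498a73_pr.E

set_option linter.unusedSimpArgs false
set_option linter.unusedSectionVars false

open Finset Filter Topology

namespace Pool.Agent.H.MP_498a73_pr

lemma lim_approx {ι : Type*} {l : Filter ι} {P : ι → ℝ} {S T : ℕ → ι → ℝ} {s t : ℕ → ℝ} {L : ℝ}
    (h : ∀ R j, |P j - S R j| ≤ T R j) (hS : ∀ R, Tendsto (S R) l (𝓝 (s R)))
    (hT : ∀ R, Tendsto (T R) l (𝓝 (t R))) (hs : Tendsto s atTop (𝓝 L))
    (ht : Tendsto t atTop (𝓝 0)) : Tendsto P l (𝓝 L) := by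
  rw [Metric.tendsto_nhds]
  intro ε hε
  obtain ⟨R, h1, h2⟩ := ((Metric.tendsto_nhds.1 hs (ε / 4) (by linarith)).and
    (Metric.tendsto_nhds.1 ht (ε / 4) (by linarith))).exists
  filter_upwards [Metric.tendsto_nhds.1 (hS R) (ε / 4) (by linarith),
    Metric.tendsto_nhds.1 (hT R) (ε / 4) (by linarith)] with j h3 h4
  have h5 := h R j
  simp only [Real.dist_eq, abs_lt, abs_le] at *
  constructor <;> linarith [h1.1, h1.2, h2.1, h2.2, h3.1, h3.2, h4.1, h4.2, h5.1, h5.2]

lemma lim_choose {ι : Type*} {l : Filter ι} {M : ι → ℕ} {p : ι → ℝ} {lam : ℝ}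
    (h1 : Tendsto (fun j => M j * p j) l (𝓝 lam)) (h2 : Tendsto p l (𝓝 0)) (r : ℕ) :
    Tendsto (fun j => ((M j).choose r : ℝ) * p j ^ r) l (𝓝 (lam ^ r / r.factorial)) := by
  induction r with
  | zero => simpa using tendsto_const_nhds
  | succ r ih =>
    have h3 := (ih.mul (h1.sub (h2.const_mul (r : ℝ)))).div_const ((r : ℝ) + 1)
    have h4 : lam ^ r / r.factorial * (lam - r * 0) / (r + 1)
        = lam ^ (r + 1) / (r + 1).factorial := by
      rw [Nat.factorial_succ]
      push_cast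
      field_simp
      ring
    rw [h4] at h3
    refine h3.congr fun j => ?_
    have h5 : ((M j).choose (r + 1) : ℝ) * (r + 1) = (M j).choose r * (M j - r) := by
      rcases le_or_gt r (M j) with h | h
      · exact_mod_cast Nat.choose_succ_right_eq (M j) r
      · rw [Nat.choose_eq_zero_of_lt h, Nat.choose_eq_zero_of_lt (by omega)]
        simp
    rw [div_eq_iff (by positivity)]
    linear_combination (-p j ^ (r + 1)) * h5

lemma choose_mono_half {n m k : ℕ} (h : m ≤ k) (hk : 2 * k ≤ n) : n.choose m ≤ n.choose k := by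
  induction k, h using Nat.le_induction with
  | base => exact le_rfl
  | succ k _ ih => exact (ih (by omega)).trans (Nat.choose_le_succ_of_lt_half_left (by omega))

lemma pow_div_le {n a k : ℕ} (h : a + 1 ≤ k) (hk : 2 * k ≤ n) :
    (n : ℝ) ^ a / n.choose k ≤ 2 ^ (a + 1) * (a + 1).factorial * (n : ℝ)⁻¹ := by
  have hn : (0 : ℝ) < n := by exact_mod_cast (by omega : 0 < n)
  have h1 : ((n + 1 - (a + 1) : ℕ) ^ (a + 1) : ℝ) / (a + 1).factorial ≤ n.choose k :=
    (Nat.pow_le_choose (a + 1) n).trans (by exact_mod_cast choose_mono_half h hk)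
  have h2 : (n : ℝ) / 2 ≤ (n + 1 - (a + 1) : ℕ) := by
    rw [div_le_iff₀ two_pos]
    exact_mod_cast (by omega : n ≤ (n + 1 - (a + 1)) * 2)
  have h3 : ((n : ℝ) / 2) ^ (a + 1) / (a + 1).factorial ≤ n.choose k :=
    le_trans (by gcongr) h1
  refine (div_le_div_of_nonneg_left (by positivity) (by positivity) h3).trans (le_of_eq ?_)
  rw [div_pow, pow_succ]
  field_simp

section
variable {ι : Type*} {l : Filter ι} {n k : ι → ℕ} {F : ι → Type} [∀ j, Field (F j)]
  [∀ j, Fintype (F j)] [∀ j, DecidableEq (F j)] {lam : ℝ}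

lemma limA (hn : Tendsto n l atTop) (hu : Tendsto (fun j => (qq (F j))⁻¹) l (𝓝 0))
    (hN : Tendsto (fun j => ((n j).choose (k j) : ℝ) * (qq (F j))⁻¹) l (𝓝 lam))
    (hk : ∀ᶠ j in l, 1 ≤ k j ∧ 2 * k j ≤ n j) {K : ℕ} (hK : ∀ᶠ j in l, k j ≤ K) :
    Tendsto (fun j => P0 (F j) (n j) (k j)) l (𝓝 (Real.exp (-lam))) := by
  have h1 : Tendsto (fun j => ((n j : ℝ))⁻¹) l (𝓝 0) :=
    tendsto_inv_atTop_zero.comp (tendsto_natCast_atTop_atTop.comp hn)
  have hδ := (h1.const_mul (K : ℝ)).mul hN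
  rw [mul_zero, zero_mul] at hδ
  have hs : Tendsto (fun j => (((n j).choose (k j) : ℝ) - 1) * (qq (F j))⁻¹) l (𝓝 lam) := by
    simpa [sub_mul] using hN.sub hu
  have hb : ∀ᶠ j in l, (1 - 2 * (qq (F j))⁻¹) * Real.exp (-(1 + 2 * (K * (n j : ℝ)⁻¹ *
      ((n j).choose (k j) * (qq (F j))⁻¹))) * (((n j).choose (k j) - 1) * (qq (F j))⁻¹))
        ≤ P0 (F j) (n j) (k j) ∧ P0 (F j) (n j) (k j) ≤ Real.exp (-(1 - (K * (n j : ℝ)⁻¹ *
      ((n j).choose (k j) * (qq (F j))⁻¹))) * (((n j).choose (k j) - 1) * (qq (F j))⁻¹)) := by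
    filter_upwards [hk, hK, hδ.eventually (ge_mem_nhds (show (0 : ℝ) < 1 / 2 by norm_num))] with j h2 h3 h4
    obtain ⟨m, hm⟩ : ∃ m, k j = m + 1 := ⟨k j - 1, by omega⟩
    obtain ⟨N, hN⟩ : ∃ N, n j = N + 1 := ⟨n j - 1, by omega⟩
    rw [hm] at h3 h4 ⊢
    refine P0_bounds (by omega) ?_ h4
    rw [← mul_assoc]
    refine mul_le_mul_of_nonneg_right ?_ (inv_pos.2 q_pos).le
    rw [hN, Nat.add_sub_cancel, mul_comm (K : ℝ), mul_assoc, ← div_eq_inv_mul,
      le_div_iff₀ (by positivity)]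
    have h5 := Nat.add_one_mul_choose_eq N m
    exact_mod_cast (by nlinarith : N.choose m * (N + 1) ≤ K * (N + 1).choose (m + 1))
  refine tendsto_of_tendsto_of_tendsto_of_le_of_le' ?_ ?_ (hb.mono fun _ h => h.1)
    (hb.mono fun _ h => h.2)
  · have := ((hu.const_mul 2).const_sub 1).mul
      ((((hδ.const_mul 2).const_add 1).neg.mul hs).rexp)
    simpa using this
  · have := ((hδ.const_sub 1).neg.mul hs).rexp
    simpa using this

lemma limB (hn : Tendsto n l atTop) (hu : Tendsto (fun j => (qq (F j))⁻¹) l (𝓝 0))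
    (hN : Tendsto (fun j => ((n j).choose (k j) : ℝ) * (qq (F j))⁻¹) l (𝓝 lam))
    (hk : ∀ᶠ j in l, 1 ≤ k j ∧ 2 * k j ≤ n j) (hK : Tendsto k l atTop) :
    Tendsto (fun j => P0 (F j) (n j) (k j)) l (𝓝 (Real.exp (-lam))) := by
  have u0 : ∀ j, 0 < (qq (F j))⁻¹ := fun j => inv_pos.2 q_pos
  have u1 : ∀ j, (qq (F j))⁻¹ ≤ 1 := fun j =>
    inv_le_one_of_one_le₀ (by linarith [two_le_q (F := F j)])
  have h1 : Tendsto (fun j => ((n j : ℝ))⁻¹) l (𝓝 0) :=
    tendsto_inv_atTop_zero.comp (tendsto_natCast_atTop_atTop.comp hn)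
  have ha : ∀ a : ℕ, Tendsto (fun j => (n j : ℝ) ^ a / (n j).choose (k j)) l (𝓝 0) := by
    intro a
    refine squeeze_zero' (Eventually.of_forall fun j => by positivity) ?_
      (by simpa using h1.const_mul ((2 : ℝ) ^ (a + 1) * (a + 1).factorial))
    filter_upwards [hk, hK.eventually_ge_atTop (a + 1)] with j h2 h3
    exact pow_div_le h3 h2.2
  have hb : ∀ a : ℕ, Tendsto (fun j => (n j : ℝ) ^ a * (qq (F j))⁻¹) l (𝓝 0) := by
    intro a
    have := (ha a).mul hN
    rw [zero_mul] at this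
    refine this.congr' ?_
    filter_upwards [hk] with j h2
    have : ((n j).choose (k j) : ℝ) ≠ 0 := by exact_mod_cast (Nat.choose_pos (by omega)).ne'
    field_simp
  have hc : ∀ ρ, Tendsto (fun j => eps (n j) (k j) ρ (qq (F j))) l (𝓝 0) := by
    intro ρ
    have := ((ha (2 * (ρ + 1))).const_mul ((ρ : ℝ) ^ 2 * (ρ + 2) ^ 2)).add (hb (ρ + 1))
    rw [mul_zero, add_zero] at this
    refine this.congr fun j => ?_
    unfold eps
    push_cast
    ring
  have hd : Tendsto (fun j => MM (F j) (k j) * ((n j).choose (k j) * (qq (F j))⁻¹ ^ k j)) l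
      (𝓝 lam) := by
    have h2 : Tendsto (fun j => (qq (F j))⁻¹ ^ k j) l (𝓝 0) := by
      refine squeeze_zero' (Eventually.of_forall fun j => (pow_pos (u0 j) _).le) ?_ hu
      filter_upwards [hk] with j h2
      exact pow_le_of_le_one (u0 j).le (u1 j) (by omega)
    have := ((h2.const_sub 1).div (hu.const_sub 1) (by norm_num)).mul hN
    simp only [sub_zero, div_one, one_mul] at this
    refine this.congr fun j => ?_
    have h3 := MM_eq (F := F j) (k j)
    have h4 := two_le_q (F := F j)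
    have h5 : qq (F j) - 1 ≠ 0 := by linarith
    have h6 : qq (F j) ≠ 0 := by linarith
    rw [eq_div_of_mul_eq h5 h3]
    simp only [Pi.div_apply, inv_pow]
    field_simp
  have M0 : ∀ j, 0 ≤ MM (F j) (k j) := fun j => Nat.cast_nonneg _
  have he : Tendsto (fun j => MM (F j) (k j) * pb (F j) (n j) (k j)) l (𝓝 lam) := by
    refine tendsto_of_tendsto_of_tendsto_of_le_of_le (g := fun j => MM (F j) (k j) *
      ((n j).choose (k j) * (qq (F j))⁻¹ ^ k j) * (1 - (n j : ℝ) ^ 1 * (qq (F j))⁻¹)) ?_ hd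
      (fun j => ?_) fun j => mul_le_mul_of_nonneg_left (pb_le _ _) (M0 j)
    · simpa using hd.mul ((hb 1).const_sub 1)
    · simp only [pow_one, mul_assoc (MM (F j) (k j))]
      exact mul_le_mul_of_nonneg_left (le_pb _ _) (M0 j)
  have hf : ∀ s : ℕ, Tendsto (fun j => qq (F j) ^ s * pb (F j) (n j) (k j)) l (𝓝 0) := by
    intro s
    refine squeeze_zero' (Eventually.of_forall fun j =>
      mul_nonneg (pow_pos q_pos _).le (pb_nonneg _ _)) ?_ (by simpa using hN.mul hu)
    filter_upwards [hK.eventually_ge_atTop (s + 2)] with j h2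
    refine (mul_le_mul_of_nonneg_left (pb_le _ _) (pow_pos q_pos _).le).trans ?_
    have h3 := pow_le_pow_of_le_one (u0 j).le (u1 j) h2
    have h4 := q_pos (F := F j)
    calc _ ≤ qq (F j) ^ s * ((n j).choose (k j) * (qq (F j))⁻¹ ^ (s + 2)) := by gcongr
      _ = _ := by
        rw [inv_pow]
        field_simp
        ring
  have hp : Tendsto (fun j => pb (F j) (n j) (k j)) l (𝓝 0) := by simpa using hf 0
  have hI : ∀ r, Tendsto (fun j => ex fun G : Fin (n j) → Fin (k j) → F j =>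
      II (F j) Projectivization.rep (BB (k j) G) r) l (𝓝 (lam ^ r / r.factorial)) := by
    intro r
    simp only [ex_II, sub_mul]
    rw [← sub_zero (lam ^ r / r.factorial)]
    refine (lim_choose he hp r).sub ?_
    cases r with
    | zero => simpa [ind_neg] using tendsto_const_nhds
    | succ s =>
      refine squeeze_zero (fun j => mul_nonneg (sum_nonneg fun _ _ => ind_nonneg _)
        (pow_nonneg (pb_nonneg _ _) _)) (fun j => ?_) (by simpa using (he.pow s).mul (hf s))
      refine (mul_le_mul_of_nonneg_right (dep_le _ (rep_inj _) s)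
        (pow_nonneg (pb_nonneg _ _) _)).trans (le_of_eq ?_)
      rw [MM]
      ring
  have hW : ∀ ρ, Tendsto (fun j => ex fun G : Fin (n j) → Fin (k j) → F j =>
      WW (F j) Projectivization.rep (BB (k j) G) ρ) l (𝓝 0) := by
    intro ρ
    refine squeeze_zero' (Eventually.of_forall fun j => ex_nonneg fun _ => WW_nonneg _ _ _) ?_
      (by simpa using (hd.pow ρ).mul (hc ρ))
    filter_upwards [hk] with j h2
    simpa using ex_WW (F := F j) (n := n j) (k := k j) (by omega) (by omega) ρ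
  refine lim_approx (fun R j => P0_bonf R)
    (fun R => tendsto_finsetSum _ fun r _ => (hI r).const_mul _)
    (fun R => (hI R).add ((tendsto_finsetSum _ fun r _ => hW r).const_mul _)) ?_ ?_
  · have h2 := (NormedSpace.expSeries_div_hasSum_exp (𝔸 := ℝ) (-lam)).tendsto_sum_nat
    rw [← Real.exp_eq_exp_ℝ] at h2
    refine (h2.comp (tendsto_add_atTop_nat 1)).congr fun R => sum_congr rfl fun r _ => ?_
    rw [neg_pow, mul_div_assoc]
  · simpa using FloorSemiring.tendsto_pow_div_factorial_atTop lam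

lemma limAB (hn : Tendsto n l atTop) (hu : Tendsto (fun j => (qq (F j))⁻¹) l (𝓝 0))
    (hN : Tendsto (fun j => ((n j).choose (k j) : ℝ) * (qq (F j))⁻¹) l (𝓝 lam))
    (hk : ∀ᶠ j in l, 1 ≤ k j ∧ 2 * k j ≤ n j) :
    Tendsto (fun j => probMDS (F j) (n j) (k j)) l (𝓝 (Real.exp (-lam))) := by
  have h1 : Tendsto (fun j => P0 (F j) (n j) (k j)) l (𝓝 (Real.exp (-lam))) := by
    rw [tendsto_iff_ultrafilter]
    intro U hU
    by_cases h : Tendsto k U atTop
    · exact limB (hn.mono_left hU) (hu.mono_left hU) (hN.mono_left hU) (hU hk) h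
    · rw [tendsto_atTop] at h
      push Not at h
      obtain ⟨K, hK⟩ := h
      exact limA (hn.mono_left hU) (hu.mono_left hU) (hN.mono_left hU) (hU hk) (K := K)
        (hK.mono fun j hj => hj.le)
  have h2 : Tendsto (fun j => ex fun G : Fin (n j) → Fin (k j) → F j => ind (BB (n j) G = ∅)) l
      (𝓝 1) := by
    refine tendsto_of_tendsto_of_tendsto_of_le_of_le' (g := fun j => 1 - 2 * (qq (F j))⁻¹)
      (by simpa using (hu.const_mul 2).const_sub 1) tendsto_const_nhds
      (hk.mono fun j h => full_ge (by omega)) (Eventually.of_forall fun j => ex_le_one _)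
  have h3 := h1.div h2 one_ne_zero
  rw [div_one] at h3
  exact h3.congr' (hk.mono fun j h => (prob_link h.1 (by omega)).symm)

theorem main (hlam : 0 < lam) (hk : ∀ j, 1 ≤ k j ∧ k j ≤ n j) (hn : Tendsto n l atTop)
    (hq : Tendsto (fun j => Fintype.card (F j)) l atTop)
    (hN : Tendsto (fun j => ((n j).choose (k j) : ℝ) / Fintype.card (F j)) l (𝓝 lam)) :
    Tendsto (fun j => probMDS (F j) (n j) (k j)) l (𝓝 (Real.exp (-lam))) := by
  have hu : Tendsto (fun j => (qq (F j))⁻¹) l (𝓝 0) :=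
    tendsto_inv_atTop_zero.comp (tendsto_natCast_atTop_atTop.comp hq)
  simp only [div_eq_mul_inv] at hN
  have h1 : ∀ᶠ j in l, k j < n j := by
    filter_upwards [(hN.sub hu).eventually (lt_mem_nhds (a := 0) (by simpa using hlam))] with j h
    refine lt_of_le_of_ne (hk j).2 fun h2 => ?_
    simp [h2] at h
  have h2 := limAB (k := fun j => min (k j) (n j - k j)) hn hu (hN.congr fun j => by
    rcases le_total (k j) (n j - k j) with h | h
    · rw [min_eq_left h]
    · rw [min_eq_right h, Nat.choose_symm (hk j).2]) (h1.mono fun j h => by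
      have := hk j
      omega)
  refine h2.congr' (h1.mono fun j h => ?_)
  rcases le_total (k j) (n j - k j) with h3 | h3
  · simp only [min_eq_left h3]
  · simp only [min_eq_right h3, prob_dual (hk j).1 h]

end

end Pool.Agent.H.MP_498a73_pr
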